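import Pool.Agent.H971.FV.Gen

/-! The forward equation for indicator-type test functions (helper file). -/

open MeasureTheory ProbabilityTheory Filter Topology Set
open scoped ENNReal NNReal unitInterval

namespace Pool.Agent.H971.FV

/-- pointwise limits of continuous functions with values in `[0,1]`. -/
def BLim (g : I → ℝ) : Prop :=
  ∃ F : ℕ → C(I, ℝ), (∀ k x, 0 ≤ F k x ∧ F k x ≤ 1) ∧ ∀ x, Tendsto (fun k => F k x) atTop (𝓝 (g x))

lemma BLim.measurable {g : I → ℝ} (h : BLim g) : Measurable g := by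
  obtain ⟨F, _, hF⟩ := h
  exact measurable_of_tendsto_metrizable (fun k => (F k).continuous.measurable)
    (tendsto_pi_nhds.2 hF)

lemma BLim.nonneg {g : I → ℝ} (h : BLim g) (x : I) : 0 ≤ g x := by
  obtain ⟨F, h1, hF⟩ := h
  exact ge_of_tendsto' (hF x) (fun k => (h1 k x).1)

lemma BLim.le_one {g : I → ℝ} (h : BLim g) (x : I) : g x ≤ 1 := by
  obtain ⟨F, h1, hF⟩ := h
  exact le_of_tendsto' (hF x) (fun k => (h1 k x).2)

lemma BLim.abs_le {g : I → ℝ} (h : BLim g) (x : I) : |g x| ≤ 1 := by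
  rw [abs_of_nonneg (h.nonneg x)]; exact h.le_one x

lemma BLim.mul {g g' : I → ℝ} (h : BLim g) (h' : BLim g') : BLim (fun x => g x * g' x) := by
  obtain ⟨F, h1, hF⟩ := h
  obtain ⟨F', h1', hF'⟩ := h'
  refine ⟨fun k => F k * F' k, fun k x => ?_, fun x => ?_⟩
  · simp only [ContinuousMap.mul_apply]
    exact ⟨mul_nonneg (h1 k x).1 (h1' k x).1, mul_le_one₀ (h1 k x).2 (h1' k x).1 (h1' k x).2⟩
  · simpa only [ContinuousMap.mul_apply] using (hF x).mul (hF' x)

lemma BLim.compl {g : I → ℝ} (h : BLim g) : BLim (fun x => 1 - g x) := by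
  obtain ⟨F, h1, hF⟩ := h
  refine ⟨fun k => 1 - F k, fun k x => ?_, fun x => ?_⟩
  · simp only [ContinuousMap.sub_apply, ContinuousMap.one_apply]
    exact ⟨by linarith [(h1 k x).2], by linarith [(h1 k x).1]⟩
  · simpa only [ContinuousMap.sub_apply, ContinuousMap.one_apply] using (hF x).const_sub 1

lemma BLim.one : BLim (fun _ => 1) :=
  ⟨fun _ => 1, fun k x => by simp, fun x => by simp⟩

lemma BLim.of_cont (g : C(I, ℝ)) (h : ∀ x, 0 ≤ g x ∧ g x ≤ 1) : BLim (fun x => g x) :=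
  ⟨fun _ => g, fun _ x => h x, fun _ => tendsto_const_nhds⟩

lemma BLim.prod {n : ℕ} {f : Fin n → I → ℝ} (h : ∀ i, BLim (f i)) (S : Finset (Fin n)) :
    BLim (fun x => ∏ i ∈ S, f i x) := by
  classical
  induction S using Finset.induction_on with
  | empty => simpa using BLim.one
  | insert a S ha ih =>
    simp_rw [Finset.prod_insert ha]
    exact (h a).mul ih

/-- A family of probability measures indexed by `X`, weakly measurable. -/
def WM {X : Type*} [MeasurableSpace X] (r : X → ProbabilityMeasure I) : Prop :=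
  ∀ g : C(I, ℝ), Measurable (fun p => ∫ y, g y ∂(r p : Measure I))

lemma tendsto_integral_BLim {F : ℕ → C(I, ℝ)} {g : I → ℝ} (h1 : ∀ k x, 0 ≤ F k x ∧ F k x ≤ 1)
    (hF : ∀ x, Tendsto (fun k => F k x) atTop (𝓝 (g x))) (μ : Measure I) [IsProbabilityMeasure μ] :
    Tendsto (fun k => ∫ y, F k y ∂μ) atTop (𝓝 (∫ y, g y ∂μ)) := by
  refine tendsto_integral_of_dominated_convergence (fun _ => 1)
    (fun k => (F k).continuous.aestronglyMeasurable) (integrable_const _) (fun k => ?_) ?_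
  · refine Eventually.of_forall (fun x => ?_)
    rw [Real.norm_eq_abs, abs_of_nonneg (h1 k x).1]; exact (h1 k x).2
  · exact Eventually.of_forall hF

lemma WM.blim {X : Type*} [MeasurableSpace X] {r : X → ProbabilityMeasure I} (hr : WM r)
    {g : I → ℝ} (hg : BLim g) : Measurable (fun p => ∫ y, g y ∂(r p : Measure I)) := by
  obtain ⟨F, h1, hF⟩ := hg
  refine measurable_of_tendsto_metrizable (fun k => hr (F k)) (tendsto_pi_nhds.2 (fun p => ?_))
  exact tendsto_integral_BLim h1 hF _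

lemma WM.mom {X : Type*} [MeasurableSpace X] {r : X → ProbabilityMeasure I} (hr : WM r) {n : ℕ}
    {f : Fin n → I → ℝ} (h : ∀ i, BLim (f i)) : Measurable (fun p => mom f (r p : Measure I)) :=
  Finset.measurable_prod _ (fun i _ => hr.blim (h i))

lemma WM.KS {X : Type*} [MeasurableSpace X] {r : X → ProbabilityMeasure I} (hr : WM r) {n : ℕ}
    {f : Fin n → I → ℝ} (h : ∀ i, BLim (f i)) (S : Finset (Fin n)) :
    Measurable (fun p => KS f (r p : Measure I) S) := by
  unfold FV.KS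
  exact ((hr.blim (BLim.prod h S)).mul
    (Finset.measurable_prod _ (fun i _ => hr.blim (h i)))).sub (hr.mom h)

lemma WM.gen' {X : Type*} [MeasurableSpace X] {r : X → ProbabilityMeasure I} (hr : WM r) {n : ℕ}
    {Λ : Measure ℝ} [IsFiniteMeasure Λ]
    {f : Fin n → I → ℝ} (h : ∀ i, BLim (f i)) : Measurable (fun p => gen' Λ f (r p : Measure I)) := by
  have : (fun p => FV.gen' Λ f (r p : Measure I)) = fun p =>
      ∑ S ∈ (Finset.univ : Finset (Fin n)).powerset with 2 ≤ S.card,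
      (∫ u, u ^ S.card * (1 - u) ^ (n - S.card) ∂(nu Λ)) * FV.KS f (r p : Measure I) S := by
    funext p
    exact gen'_eq f (fun i => (h i).measurable) (fun i x => (h i).abs_le x) _
  rw [this]
  exact Finset.measurable_sum _ (fun S _ => (hr.KS h S).const_mul _)

lemma integral_mem {g : I → ℝ} (h : BLim g) (μ : Measure I) [IsProbabilityMeasure μ] :
    0 ≤ ∫ y, g y ∂μ ∧ ∫ y, g y ∂μ ≤ 1 := by
  refine ⟨integral_nonneg (fun x => h.nonneg x), ?_⟩
  have := integral_mono (μ := μ) (integrable_of_bdd h.measurable h.abs_le) (integrable_const 1)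
    (fun x => h.le_one x)
  simpa using this

lemma mom_mem {n : ℕ} {f : Fin n → I → ℝ} (h : ∀ i, BLim (f i)) (μ : Measure I)
    [IsProbabilityMeasure μ] : 0 ≤ mom f μ ∧ mom f μ ≤ 1 :=
  ⟨Finset.prod_nonneg (fun i _ => (integral_mem (h i) μ).1),
    Finset.prod_le_one (fun i _ => (integral_mem (h i) μ).1) (fun i _ => (integral_mem (h i) μ).2)⟩

lemma KS_abs {n : ℕ} {f : Fin n → I → ℝ} (h : ∀ i, BLim (f i)) (μ : Measure I)
    [IsProbabilityMeasure μ] (S : Finset (Fin n)) : |KS f μ S| ≤ 1 := by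
  unfold KS
  have h1 := integral_mem (BLim.prod h S) μ
  have h2 : 0 ≤ ∏ i ∈ Finset.univ \ S, ∫ y, f i y ∂μ :=
    Finset.prod_nonneg (fun i _ => (integral_mem (h i) μ).1)
  have h3 : ∏ i ∈ Finset.univ \ S, ∫ y, f i y ∂μ ≤ 1 :=
    Finset.prod_le_one (fun i _ => (integral_mem (h i) μ).1) (fun i _ => (integral_mem (h i) μ).2)
  have h4 := mom_mem h μ
  have h5 := mul_nonneg h1.1 h2
  have h6 : (∫ x, ∏ i ∈ S, f i x ∂μ) * (∏ i ∈ Finset.univ \ S, ∫ y, f i y ∂μ) ≤ 1 :=
    mul_le_one₀ h1.2 h2 h3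
  rw [abs_le]
  constructor <;> linarith [h4.1, h4.2]

/-- uniform bound for the generator -/
noncomputable def genBound (Λ : Measure ℝ) (n : ℕ) : ℝ :=
  ∑ S ∈ (Finset.univ : Finset (Fin n)).powerset with 2 ≤ S.card,
      |∫ u, u ^ S.card * (1 - u) ^ (n - S.card) ∂(nu Λ)|

lemma gen'_abs {Λ : Measure ℝ} [IsFiniteMeasure Λ] {n : ℕ} {f : Fin n → I → ℝ}
    (h : ∀ i, BLim (f i)) (μ : Measure I) [IsProbabilityMeasure μ] :
    |gen' Λ f μ| ≤ genBound Λ n := by
  rw [gen'_eq f (fun i => (h i).measurable) (fun i x => (h i).abs_le x) μ]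
  refine (Finset.abs_sum_le_sum_abs _ _).trans (Finset.sum_le_sum (fun S _ => ?_))
  rw [abs_mul]
  have := KS_abs h μ S
  have h0 := abs_nonneg (∫ u, u ^ S.card * (1 - u) ^ (n - S.card) ∂(nu Λ))
  nlinarith

section limits

variable {n : ℕ} {F : Fin n → ℕ → C(I, ℝ)} {f : Fin n → I → ℝ}

lemma tendsto_mom (h1 : ∀ i k x, 0 ≤ F i k x ∧ F i k x ≤ 1)
    (hF : ∀ i x, Tendsto (fun k => F i k x) atTop (𝓝 (f i x))) (μ : Measure I)
    [IsProbabilityMeasure μ] :
    Tendsto (fun k => mom (fun i => ⇑(F i k)) μ) atTop (𝓝 (mom f μ)) :=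
  tendsto_finsetProd _ (fun i _ => tendsto_integral_BLim (h1 i) (hF i) μ)

lemma tendsto_KS (h1 : ∀ i k x, 0 ≤ F i k x ∧ F i k x ≤ 1)
    (hF : ∀ i x, Tendsto (fun k => F i k x) atTop (𝓝 (f i x))) (μ : Measure I)
    [IsProbabilityMeasure μ] (S : Finset (Fin n)) :
    Tendsto (fun k => KS (fun i => ⇑(F i k)) μ S) atTop (𝓝 (KS f μ S)) := by
  unfold KS
  refine Tendsto.sub (Tendsto.mul ?_ ?_) (tendsto_mom h1 hF μ)
  · refine tendsto_integral_of_dominated_convergence (fun _ => 1)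
      (fun k => ?_) (integrable_const _) (fun k => ?_) ?_
    · exact (Finset.measurable_prod _
        (fun i _ => (F i k).continuous.measurable)).aestronglyMeasurable
    · refine Eventually.of_forall (fun x => ?_)
      rw [Real.norm_eq_abs, abs_of_nonneg (Finset.prod_nonneg (fun i _ => (h1 i k x).1))]
      exact Finset.prod_le_one (fun i _ => (h1 i k x).1) (fun i _ => (h1 i k x).2)
    · exact Eventually.of_forall (fun x => tendsto_finsetProd _ (fun i _ => hF i x))
  · exact tendsto_finsetProd _ (fun i _ => tendsto_integral_BLim (h1 i) (hF i) μ)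

lemma tendsto_gen' {Λ : Measure ℝ} [IsFiniteMeasure Λ] (h1 : ∀ i k x, 0 ≤ F i k x ∧ F i k x ≤ 1)
    (hF : ∀ i x, Tendsto (fun k => F i k x) atTop (𝓝 (f i x))) (μ : Measure I)
    [IsProbabilityMeasure μ] :
    Tendsto (fun k => gen' Λ (fun i => ⇑(F i k)) μ) atTop (𝓝 (gen' Λ f μ)) := by
  have hB : ∀ i, BLim (f i) := fun i => ⟨F i, h1 i, hF i⟩
  rw [gen'_eq f (fun i => (hB i).measurable) (fun i x => (hB i).abs_le x) μ]
  have : (fun k => gen' Λ (fun i => ⇑(F i k)) μ) = fun k =>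
      ∑ S ∈ (Finset.univ : Finset (Fin n)).powerset with 2 ≤ S.card,
      (∫ u, u ^ S.card * (1 - u) ^ (n - S.card) ∂(nu Λ)) * KS (fun i => ⇑(F i k)) μ S := by
    funext k
    have hBk : ∀ i, BLim (fun x => F i k x) := fun i => BLim.of_cont (F i k) (h1 i k)
    exact gen'_eq _ (fun i => (hBk i).measurable) (fun i x => (hBk i).abs_le x) μ
  rw [this]
  exact tendsto_finsetSum _ (fun S _ => (tendsto_KS h1 hF μ S).const_mul _)

end limits

section process

variable {Ω : Type*} [mΩ : MeasurableSpace Ω] {P : Measure Ω}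
  {Λ : Measure ℝ} {ρ : ℝ≥0 → Ω → ProbabilityMeasure I}

lemma wm_of_measurable {X : Type*} [MeasurableSpace X] {r : X → ProbabilityMeasure I}
    (hr : Measurable r) : WM r := by
  intro g
  let κ : Kernel X I := ⟨fun ω => (r ω : Measure I), measurable_subtype_coe.comp hr⟩
  exact (g.continuous.stronglyMeasurable.integral_kernel (κ := κ)).measurable

lemma aux1 {G : ℕ → Ω → ℝ} (hG : ∀ k, Measurable (G k)) {fl : ℝ × Ω → ℕ} (hfl : Measurable fl) :
    Measurable (fun p : ℝ × Ω => G (fl p) p.2) := by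
  have h1 : Measurable (fun q : ℕ × Ω => G q.1 q.2) := measurable_from_prod_countable_right hG
  exact h1.comp (hfl.prodMk measurable_snd)

lemma aux2 (n : ℕ) : Measurable (fun p : ℝ × Ω => ⌊((n : ℝ≥0) + 1) * p.1.toNNReal⌋₊) := by
  have h1 : Measurable (fun p : ℝ × Ω => ((n : ℝ≥0) + 1) * p.1.toNNReal) := by fun_prop
  exact Nat.measurable_floor.comp h1

lemma wm_joint (hm : ∀ t, Measurable (ρ t))
    (hr : ∀ ω t, ContinuousWithinAt (fun s => ρ s ω) (Ici t) t) :
    WM (fun p : ℝ × Ω => ρ p.1.toNNReal p.2) := by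
  intro g
  refine measurable_of_tendsto_metrizable
    (f := fun (n : ℕ) (p : ℝ × Ω) => ∫ y, g y ∂(ρ ((⌊((n : ℝ≥0) + 1) * p.1.toNNReal⌋₊ + 1) /
      ((n : ℝ≥0) + 1)) p.2 : Measure I)) (fun n => ?_) (tendsto_pi_nhds.2 (fun p => ?_))
  · exact aux1 (G := fun k ω => ∫ y, g y ∂(ρ (((k : ℝ≥0) + 1) / ((n : ℝ≥0) + 1)) ω : Measure I))
      (fun k => wm_of_measurable (hm _) g) (aux2 n)
  · have hc := ProbabilityMeasure.continuous_integral_continuousMap g
    have h3 : Tendsto (fun n : ℕ => ((⌊((n : ℝ≥0) + 1) * p.1.toNNReal⌋₊ : ℝ≥0) + 1) /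
      ((n : ℝ≥0) + 1)) atTop (𝓝[Ici p.1.toNNReal] p.1.toNNReal) := by
      rw [tendsto_nhdsWithin_iff]
      constructor
      · have hup : Tendsto (fun n : ℕ => p.1.toNNReal + 1 / ((n : ℝ≥0) + 1)) atTop
            (𝓝 (p.1.toNNReal + 0)) := by
          refine Tendsto.const_add _ ?_
          exact tendsto_one_div_add_atTop_nhds_zero_nat
        rw [add_zero] at hup
        refine tendsto_of_tendsto_of_tendsto_of_le_of_le tendsto_const_nhds hup (fun n => ?_)
          (fun n => ?_)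
        · have hn : (0 : ℝ≥0) < (n : ℝ≥0) + 1 := by positivity
          show p.1.toNNReal ≤ _
          rw [le_div_iff₀ hn, mul_comm]
          exact (Nat.lt_floor_add_one _).le
        · have hn : (0 : ℝ≥0) < (n : ℝ≥0) + 1 := by positivity
          show _ ≤ p.1.toNNReal + 1 / ((n : ℝ≥0) + 1)
          rw [add_div]
          gcongr
          rw [div_le_iff₀ hn, mul_comm (p.1.toNNReal)]
          exact Nat.floor_le (by positivity)
      · refine Eventually.of_forall (fun n => ?_)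
        have hn : (0 : ℝ≥0) < (n : ℝ≥0) + 1 := by positivity
        show p.1.toNNReal ≤ _
        rw [le_div_iff₀ hn, mul_comm]
        exact (Nat.lt_floor_add_one _).le
    exact (hc.tendsto _).comp ((hr p.2 p.1.toNNReal).tendsto.comp h3)

variable [IsProbabilityMeasure P] [IsFiniteMeasure Λ]

/-- time-space measure -/
noncomputable def ts (P : Measure Ω) (t : ℝ≥0) : Measure (ℝ × Ω) :=
  (volume.restrict (Ioc 0 (t : ℝ))).prod P

instance (t : ℝ≥0) : IsFiniteMeasure (ts P t) := by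
  unfold ts; infer_instance

lemma IsFlemingViot.meas (h : IsFlemingViot Λ P ρ) (t : ℝ≥0) : Measurable (ρ t) := by
  obtain ⟨𝓕, h1, _⟩ := h.martingale
  exact (h1 t).mono (𝓕.le t) le_rfl

lemma IsFlemingViot.wm (h : IsFlemingViot Λ P ρ) :
    WM (fun p : ℝ × Ω => ρ p.1.toNNReal p.2) := wm_joint h.meas h.right_cont

lemma IsFlemingViot.integrable_gen (h : IsFlemingViot Λ P ρ) {n : ℕ} {f : Fin n → I → ℝ}
    (hf : ∀ i, BLim (f i)) (t : ℝ≥0) :
    Integrable (fun p : ℝ × Ω => gen' Λ f (ρ p.1.toNNReal p.2 : Measure I)) (ts P t) :=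
  Integrable.of_bound (C := genBound Λ n) (h.wm.gen' hf).aestronglyMeasurable
    (Eventually.of_forall (fun _ => gen'_abs hf _))

lemma IsFlemingViot.integrable_mom (h : IsFlemingViot Λ P ρ) {n : ℕ} {f : Fin n → I → ℝ}
    (hf : ∀ i, BLim (f i)) (t : ℝ≥0) :
    Integrable (fun ω => mom f (ρ t ω : Measure I)) P :=
  Integrable.of_bound (C := 1) ((wm_of_measurable (h.meas t)).mom hf).aestronglyMeasurable
    (Eventually.of_forall (fun ω => by
      rw [Real.norm_eq_abs, abs_of_nonneg (mom_mem hf _).1]; exact (mom_mem hf _).2))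

lemma fwd_cont (h : IsFlemingViot Λ P ρ) {n : ℕ} (f : Fin n → C(I, ℝ))
    (hf : ∀ i x, 0 ≤ f i x ∧ f i x ≤ 1) (t : ℝ≥0) :
    ∫ ω, mom (fun i => ⇑(f i)) (ρ t ω : Measure I) ∂P = mom (fun i => ⇑(f i)) (volume : Measure I)
      + ∫ p, gen' Λ (fun i => ⇑(f i)) (ρ p.1.toNNReal p.2 : Measure I) ∂(ts P t) := by
  have hB : ∀ i, BLim (fun x => f i x) := fun i => BLim.of_cont (f i) (hf i)
  obtain ⟨𝓕, h1, h2⟩ := h.martingale
  have hM := h2 n f
  have hint := h.integrable_gen hB t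
  -- expectation of the martingale
  have hE : ∫ ω, (testFun f (ρ t ω) - ∫ s in (0 : ℝ)..t, generator Λ f (ρ s.toNNReal ω)) ∂P
      = ∫ ω, (testFun f (ρ 0 ω) - ∫ s in (0 : ℝ)..((0 : ℝ≥0) : ℝ),
          generator Λ f (ρ s.toNNReal ω)) ∂P := by
    have h3 := hM.2 0 t (by positivity)
    have h4 := integral_condExp (μ := P) (𝓕.le 0)
      (f := fun ω => testFun f (ρ t ω) - ∫ s in (0 : ℝ)..t, generator Λ f (ρ s.toNNReal ω))
    rw [← h4]
    exact integral_congr_ae h3
  have hint2 : Integrable (fun ω => ∫ s in (0 : ℝ)..t, generator Λ f (ρ s.toNNReal ω)) P := by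
    have : (fun ω => ∫ s in (0 : ℝ)..t, generator Λ f (ρ s.toNNReal ω))
        = fun ω => ∫ s in Ioc (0 : ℝ) t, gen' Λ (fun i => ⇑(f i)) (ρ s.toNNReal ω : Measure I) := by
      funext ω
      rw [intervalIntegral.integral_of_le (NNReal.coe_nonneg t)]
      rfl
    rw [this]
    exact hint.integral_prod_right
  have hval : ∫ ω, (∫ s in (0 : ℝ)..t, generator Λ f (ρ s.toNNReal ω)) ∂P
      = ∫ p, gen' Λ (fun i => ⇑(f i)) (ρ p.1.toNNReal p.2 : Measure I) ∂(ts P t) := by
    unfold ts at hint ⊢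
    rw [integral_prod_symm _ hint]
    refine integral_congr_ae (Eventually.of_forall (fun ω => ?_))
    show (∫ s in (0 : ℝ)..t, generator Λ f (ρ s.toNNReal ω)) = _
    rw [intervalIntegral.integral_of_le (NNReal.coe_nonneg t)]
    rfl
  have hmt : Integrable (fun ω => testFun f (ρ t ω)) P := h.integrable_mom hB t
  rw [integral_sub hmt hint2, hval] at hE
  have h0 : ∫ ω, (testFun f (ρ 0 ω) - ∫ s in (0 : ℝ)..((0 : ℝ≥0) : ℝ),
          generator Λ f (ρ s.toNNReal ω)) ∂P = mom (fun i => ⇑(f i)) (volume : Measure I) := by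
    have : ∀ᵐ ω ∂P, (testFun f (ρ 0 ω) - ∫ s in (0 : ℝ)..((0 : ℝ≥0) : ℝ),
          generator Λ f (ρ s.toNNReal ω)) = mom (fun i => ⇑(f i)) (volume : Measure I) := by
      filter_upwards [h.init] with ω hω
      rw [NNReal.coe_zero, intervalIntegral.integral_same, sub_zero, testFun_eq, hω]
    rw [integral_congr_ae this, integral_const, probReal_univ, one_smul]
  rw [h0] at hE
  have : ∫ ω, mom (fun i => ⇑(f i)) (ρ t ω : Measure I) ∂P = ∫ ω, testFun f (ρ t ω) ∂P := rfl
  rw [this]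
  linarith

/-- The forward equation. -/
theorem fwd (h : IsFlemingViot Λ P ρ) {n : ℕ} {f : Fin n → I → ℝ}
    (hf : ∀ i, BLim (f i)) (t : ℝ≥0) :
    ∫ ω, mom f (ρ t ω : Measure I) ∂P = mom f (volume : Measure I)
      + ∫ p, gen' Λ f (ρ p.1.toNNReal p.2 : Measure I) ∂(ts P t) := by
  choose F h1 hF using hf
  have hBk : ∀ k i, BLim (fun x => F i k x) := fun k i => BLim.of_cont (F i k) (h1 i k)
  have hk := fun k => fwd_cont h (fun i => F i k) (fun i x => h1 i k x) t
  have hL : Tendsto (fun k => ∫ ω, mom (fun i => ⇑(F i k)) (ρ t ω : Measure I) ∂P) atTop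
      (𝓝 (∫ ω, mom f (ρ t ω : Measure I) ∂P)) := by
    refine tendsto_integral_of_dominated_convergence (fun _ => 1)
      (fun k => (h.integrable_mom (hBk k) t).aestronglyMeasurable) (integrable_const _)
      (fun k => ?_) ?_
    · exact Eventually.of_forall (fun ω => by
        rw [Real.norm_eq_abs, abs_of_nonneg (mom_mem (hBk k) _).1]; exact (mom_mem (hBk k) _).2)
    · exact Eventually.of_forall (fun ω => tendsto_mom h1 hF _)
  have hR : Tendsto (fun k => mom (fun i => ⇑(F i k)) (volume : Measure I)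
      + ∫ p, gen' Λ (fun i => ⇑(F i k)) (ρ p.1.toNNReal p.2 : Measure I) ∂(ts P t)) atTop
      (𝓝 (mom f (volume : Measure I)
      + ∫ p, gen' Λ f (ρ p.1.toNNReal p.2 : Measure I) ∂(ts P t))) := by
    refine (tendsto_mom h1 hF _).add ?_
    refine tendsto_integral_of_dominated_convergence (fun _ => genBound Λ n)
      (fun k => (h.integrable_gen (hBk k) t).aestronglyMeasurable) (integrable_const _)
      (fun k => ?_) ?_
    · exact Eventually.of_forall (fun p => gen'_abs (hBk k) _)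
    · exact Eventually.of_forall (fun p => tendsto_gen' h1 hF _)
  simp_rw [hk] at hL
  exact tendsto_nhds_unique hL hR

end process

end Pool.Agent.H971.FV
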