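import Pool.Agent.H971.FV.Defs

/-! Expansion of the generator (helper file). -/

open MeasureTheory ProbabilityTheory Filter Topology Set
open scoped ENNReal NNReal unitInterval

namespace Pool.Agent.H971.FV

lemma integrable_nu {Λ : Measure ℝ} [IsFiniteMeasure Λ] {g : ℝ → ℝ} (hg : Measurable g) {C : ℝ}
    (h : ∀ u ∈ Ioc (0 : ℝ) 1, |g u| ≤ C * u ^ 2) : Integrable g (nu Λ) := by
  unfold nu
  rw [integrable_withDensity_iff_integrable_smul' (by fun_prop)
    (Eventually.of_forall (fun _ => ENNReal.ofReal_lt_top))]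
  refine Integrable.of_bound (C := C) (by fun_prop) ?_
  rw [ae_restrict_iff' measurableSet_Ioc]
  refine Eventually.of_forall (fun u hu => ?_)
  have h0 : 0 < u ^ 2 := pow_pos hu.1 2
  rw [ENNReal.toReal_ofReal (inv_nonneg.2 h0.le), smul_eq_mul, norm_mul, Real.norm_eq_abs,
    Real.norm_eq_abs, abs_of_nonneg (inv_nonneg.2 h0.le), inv_mul_le_iff₀ h0]
  have := h u hu
  linarith

/-- moment functional for general functions. -/
noncomputable def mom {n : ℕ} (f : Fin n → I → ℝ) (μ : Measure I) : ℝ := ∏ i, ∫ y, f i y ∂μ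

/-- jump integral -/
noncomputable def jump {n : ℕ} (f : Fin n → I → ℝ) (μ : Measure I) (u : ℝ) : ℝ :=
  ∫ x, ((∏ i, ((1 - u) * (∫ y, f i y ∂μ) + u * f i x)) - mom f μ) ∂μ

/-- generator for general functions. -/
noncomputable def gen' (Λ : Measure ℝ) {n : ℕ} (f : Fin n → I → ℝ) (μ : Measure I) : ℝ :=
  ∫ u, jump f μ u ∂(nu Λ)

lemma testFun_eq {n : ℕ} (f : Fin n → C(I, ℝ)) (ρ : ProbabilityMeasure I) :
    testFun f ρ = mom (fun i => ⇑(f i)) (ρ : Measure I) := rfl

lemma generator_eq (Λ : Measure ℝ) {n : ℕ} (f : Fin n → C(I, ℝ)) (ρ : ProbabilityMeasure I) :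
    generator Λ f ρ = gen' Λ (fun i => ⇑(f i)) (ρ : Measure I) := rfl

/-- the coefficient of a merger of `S`. -/
noncomputable def KS {n : ℕ} (f : Fin n → I → ℝ) (μ : Measure I) (S : Finset (Fin n)) : ℝ :=
  (∫ x, ∏ i ∈ S, f i x ∂μ) * (∏ i ∈ Finset.univ \ S, ∫ y, f i y ∂μ) - mom f μ

lemma integrable_of_bdd {μ : Measure I} [IsProbabilityMeasure μ] {g : I → ℝ} (hg : Measurable g)
    {C : ℝ} (h : ∀ x, |g x| ≤ C) : Integrable g μ :=
  Integrable.of_bound (C := C) hg.aestronglyMeasurable (Eventually.of_forall h)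

lemma jump_eq {n : ℕ} (f : Fin n → I → ℝ) (hf : ∀ i, Measurable (f i)) {C : ℝ}
    (hC : ∀ i x, |f i x| ≤ C) (μ : Measure I) [IsProbabilityMeasure μ] (u : ℝ) :
    jump f μ u = ∑ S ∈ (Finset.univ : Finset (Fin n)).powerset with 2 ≤ S.card,
      u ^ S.card * (1 - u) ^ (n - S.card) * KS f μ S := by
  have hprodm : ∀ S : Finset (Fin n), Measurable (fun x => ∏ i ∈ S, f i x) := fun S =>
    Finset.measurable_prod _ (fun i _ => hf i)
  have hprodi : ∀ S : Finset (Fin n), Integrable (fun x => ∏ i ∈ S, f i x) μ := by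
    intro S
    refine integrable_of_bdd (hprodm S) (C := C ^ S.card) (fun x => ?_)
    rw [Finset.abs_prod]
    calc ∏ i ∈ S, |f i x| ≤ ∏ _i ∈ S, C :=
          Finset.prod_le_prod (fun i _ => abs_nonneg _) (fun i _ => hC i x)
      _ = _ := by rw [Finset.prod_const]
  -- expansion of the product
  have hexp : ∀ x, ∏ i, ((1 - u) * (∫ y, f i y ∂μ) + u * f i x)
      = ∑ S ∈ (Finset.univ : Finset (Fin n)).powerset, u ^ S.card * (1 - u) ^ (n - S.card) *
        ((∏ i ∈ Finset.univ \ S, ∫ y, f i y ∂μ) * ∏ i ∈ S, f i x) := by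
    intro x
    have : ∏ i, ((1 - u) * (∫ y, f i y ∂μ) + u * f i x)
      = ∏ i, (u * f i x + (1 - u) * (∫ y, f i y ∂μ)) :=
      Finset.prod_congr rfl (fun i _ => add_comm _ _)
    rw [this, Finset.prod_add]
    refine Finset.sum_congr rfl (fun S _ => ?_)
    rw [Finset.prod_mul_distrib, Finset.prod_mul_distrib, Finset.prod_const, Finset.prod_const,
      Finset.card_sdiff_of_subset (Finset.subset_univ S), Finset.card_univ, Fintype.card_fin]
    ring
  unfold jump
  simp_rw [hexp]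
  have hint : ∀ S ∈ (Finset.univ : Finset (Fin n)).powerset,
      Integrable (fun x => u ^ S.card * (1 - u) ^ (n - S.card) *
        ((∏ i ∈ Finset.univ \ S, ∫ y, f i y ∂μ) * ∏ i ∈ S, f i x)) μ := fun S _ =>
    ((hprodi S).const_mul _).const_mul _
  rw [integral_sub (integrable_finsetSum _ hint) (integrable_const _), integral_finsetSum _ hint]
  simp only [integral_const, probReal_univ, smul_eq_mul, one_mul]
  have hone : ∑ S ∈ (Finset.univ : Finset (Fin n)).powerset, u ^ S.card * (1 - u) ^ (n - S.card)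
      = 1 := by
    have h := Finset.sum_pow_mul_eq_add_pow u (1 - u) (Finset.univ : Finset (Fin n))
    rw [Finset.card_univ, Fintype.card_fin] at h
    rw [h]
    have : u + (1 - u) = 1 := by ring
    rw [this, one_pow]
  have hmom : mom f μ = ∑ S ∈ (Finset.univ : Finset (Fin n)).powerset,
      u ^ S.card * (1 - u) ^ (n - S.card) * mom f μ := by
    rw [← Finset.sum_mul, hone, one_mul]
  rw [hmom, ← Finset.sum_sub_distrib, Finset.sum_filter]
  refine Finset.sum_congr rfl (fun S _ => ?_)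
  have hS : ∫ x, u ^ S.card * (1 - u) ^ (n - S.card) *
        ((∏ i ∈ Finset.univ \ S, ∫ y, f i y ∂μ) * ∏ i ∈ S, f i x) ∂μ
      - u ^ S.card * (1 - u) ^ (n - S.card) * mom f μ
      = u ^ S.card * (1 - u) ^ (n - S.card) * KS f μ S := by
    rw [integral_const_mul, integral_const_mul]
    unfold KS
    ring
  rw [hS]
  split_ifs with h2
  · rfl
  · -- small sets
    push Not at h2
    have hK : KS f μ S = 0 := by
      unfold KS
      interval_cases hc : S.card
      · rw [Finset.card_eq_zero] at hc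
        rw [hc]
        simp [mom]
      · rw [Finset.card_eq_one] at hc
        obtain ⟨a, rfl⟩ := hc
        simp only [Finset.prod_singleton]
        have : mom f μ = (∫ x, f a x ∂μ) * ∏ i ∈ Finset.univ \ {a}, ∫ y, f i y ∂μ := by
          unfold mom
          rw [← Finset.mul_prod_erase _ _ (Finset.mem_univ a), Finset.sdiff_singleton_eq_erase]
        rw [this]; ring
    rw [hK, mul_zero]

lemma integrable_mono_nu {Λ : Measure ℝ} [IsFiniteMeasure Λ] {l m : ℕ} (hl : 2 ≤ l) :
    Integrable (fun u : ℝ => u ^ l * (1 - u) ^ m) (nu Λ) := by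
  refine integrable_nu (by fun_prop) (C := 1) (fun u hu => ?_)
  have h0 : 0 ≤ 1 - u := by linarith [hu.2]
  rw [abs_of_nonneg (mul_nonneg (pow_nonneg hu.1.le _) (pow_nonneg h0 _))]
  have h1 : u ^ l ≤ u ^ 2 := pow_le_pow_of_le_one hu.1.le hu.2 hl
  have h2 : (1 - u) ^ m ≤ 1 := pow_le_one₀ h0 (by linarith [hu.1])
  calc u ^ l * (1 - u) ^ m ≤ u ^ 2 * 1 :=
        mul_le_mul h1 h2 (pow_nonneg h0 _) (by positivity)
    _ = 1 * u ^ 2 := by ring

lemma gen'_eq {Λ : Measure ℝ} [IsFiniteMeasure Λ] {n : ℕ} (f : Fin n → I → ℝ)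
    (hf : ∀ i, Measurable (f i)) {C : ℝ}
    (hC : ∀ i x, |f i x| ≤ C) (μ : Measure I) [IsProbabilityMeasure μ] :
    gen' Λ f μ = ∑ S ∈ (Finset.univ : Finset (Fin n)).powerset with 2 ≤ S.card,
      (∫ u, u ^ S.card * (1 - u) ^ (n - S.card) ∂(nu Λ)) * KS f μ S := by
  unfold gen'
  simp_rw [jump_eq f hf hC μ]
  rw [integral_finsetSum]
  · refine Finset.sum_congr rfl (fun S _ => ?_)
    rw [integral_mul_const]
  · intro S hS
    rw [Finset.mem_filter] at hS
    exact (integrable_mono_nu hS.2).mul_const _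

end Pool.Agent.H971.FV
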