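import Mathlib

/-! Definitions for `MP_83f2fc_pr`: regime Intensive infinity, the Lambda-Fleming-Viot process
(as solution of its martingale problem) and infinite sequences of Eves. -/

open MeasureTheory ProbabilityTheory Filter Topology Set
open scoped ENNReal NNReal unitInterval

namespace Pool.Agent.H971.FV

/-- The measure `ν(du) = u⁻² Λ(du)` on `(0,1]`. -/
noncomputable def nu (Λ : Measure ℝ) : Measure ℝ :=
  (Λ.restrict (Ioc 0 1)).withDensity (fun u => ENNReal.ofReal ((u ^ 2)⁻¹))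

/-- `Ψ(q) = ∫_{(0,1]} (e^{-qu} - 1 + qu) ν(du)`. -/
noncomputable def Psi (Λ : Measure ℝ) (q : ℝ) : ℝ :=
  ∫ u, (Real.exp (-(q * u)) - 1 + q * u) ∂(nu Λ)

/-- `Λ` is a finite measure on `[0,1]` in regime Intensive infinity. -/
structure IntensiveInfty (Λ : Measure ℝ) : Prop where
  /-- `Λ` is finite -/
  finite : IsFiniteMeasure Λ
  /-- `Λ` is carried by `[0,1]` -/
  support : Λ (Icc 0 1)ᶜ = 0
  /-- `Λ({0}) = 0` -/
  atom_zero : Λ {0} = 0
  /-- `∫_{(0,1)} u ν(du) = ∞` -/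
  no_dust : ∫⁻ u in Ioo 0 1, ENNReal.ofReal u ∂(nu Λ) = ∞
  /-- `∫^∞ dq / Ψ(q) = ∞` -/
  not_cdi : ∀ a : ℝ, 0 < a → ∫⁻ q in Ioi a, ENNReal.ofReal (1 / Psi Λ q) = ∞

/-- The test function `G_f(ρ) = ∏_i ∫ f_i dρ`. -/
noncomputable def testFun {n : ℕ} (f : Fin n → C(I, ℝ)) (ρ : ProbabilityMeasure I) : ℝ :=
  ∏ i, ∫ y, f i y ∂(ρ : Measure I)

/-- The generator of the `Λ`-Fleming-Viot process (for `Λ({0}) = 0`) on `G_f`: at rate `ν(du)` a
type `x` is sampled from `ρ` and `ρ` is replaced by `(1-u) ρ + u δ_x`, i.e.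
`(L G_f)(ρ) = ∫ ν(du) ∫ ρ(dx) (G_f((1-u) ρ + u δ_x) - G_f(ρ))`, where
`G_f((1-u) ρ + u δ_x) = ∏_i ((1-u) ∫ f_i dρ + u f_i(x))`. -/
noncomputable def generator (Λ : Measure ℝ) {n : ℕ} (f : Fin n → C(I, ℝ))
    (ρ : ProbabilityMeasure I) : ℝ :=
  ∫ u, (∫ x, ((∏ i, ((1 - u) * (∫ y, f i y ∂(ρ : Measure I)) + u * f i x)) - testFun f ρ)
    ∂(ρ : Measure I)) ∂(nu Λ)

/-- `ρ` is a `Λ`-Fleming-Viot process (`Λ({0}) = 0`) started from Lebesgue measure on `[0,1]`: it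
takes its values in the probability measures on `[0,1]` with the weak topology, is càdlàg, starts
from Lebesgue measure, and solves the (well-posed) martingale problem for the generator. -/
structure IsFlemingViot (Λ : Measure ℝ) {Ω : Type*} [mΩ : MeasurableSpace Ω] (P : Measure Ω)
    (ρ : ℝ≥0 → Ω → ProbabilityMeasure I) : Prop where
  /-- right-continuity of the paths -/
  right_cont : ∀ ω t, ContinuousWithinAt (fun s => ρ s ω) (Ici t) t
  /-- left limits of the paths -/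
  left_lim : ∀ ω t, ∃ l, Tendsto (fun s => ρ s ω) (𝓝[<] t) (𝓝 l)
  /-- initial value -/
  init : ∀ᵐ ω ∂P, (ρ 0 ω : Measure I) = volume
  /-- adaptedness and martingale problem -/
  martingale : ∃ 𝓕 : Filtration ℝ≥0 mΩ, (∀ t, Measurable[𝓕 t] (ρ t)) ∧
    ∀ (n : ℕ) (f : Fin n → C(I, ℝ)), Martingale
      (fun t ω => testFun f (ρ t ω) - ∫ s in (0 : ℝ)..t, generator Λ f (ρ s.toNNReal ω)) 𝓕 P

/-- The path `t ↦ ρ_t` of probability measures on `[0,1]` has an infinite sequence of Eves. -/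
def HasEves (ρ : ℝ≥0 → ProbabilityMeasure I) : Prop :=
  ∃ e : ℕ → I, Function.Injective e ∧ ∀ i : ℕ,
    Tendsto (fun t => (ρ t : Measure I).real {e i} /
      (ρ t : Measure I).real (e '' {j | j < i})ᶜ) atTop (𝓝 1)

end Pool.Agent.H971.FV
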