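import Pool.Agent.H971.FV.Seq

/-! The summed drift inequality (helper file). -/

open Filter Topology

namespace Pool.Agent.H971.FV

lemma hasSum_qn : HasSum qn 1 := by
  have h := hasSum_geometric_two' (1 : ℝ)
  refine h.congr_fun ?_ |> fun h => h
  intro i
  unfold qn
  rw [one_div, inv_pow, pow_succ]
  field_simp

lemma hasSum_qn_tail (M : ℕ) : HasSum (fun i => if M ≤ i then qn i else 0) ((1 / 2) ^ M) := by
  rw [← hasSum_nat_add_iff' M]
  have e : ∑ i ∈ Finset.range M, (if M ≤ i then qn i else 0) = 0 := by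
    refine Finset.sum_eq_zero (fun i hi => ?_)
    rw [if_neg (by rw [Finset.mem_range] at hi; omega)]
  rw [e, sub_zero]
  have h := hasSum_qn.mul_left ((1 / 2 : ℝ) ^ M)
  rw [mul_one] at h
  refine h.congr_fun ?_ |> fun h => h
  intro i
  simp only [Nat.le_add_left, if_true]
  unfold qn
  ring

lemma sum_lower {f : ℕ → ℝ} {S : ℝ} (hf : HasSum f S) {κ c g : ℝ} {P : Prop} [Decidable P]
    {i0 M : ℕ}
    (h : ∀ i, κ * (c * qn i + (if i = i0 ∧ P then g else 0) - (if M ≤ i then qn i else 0)) ≤ f i) :
    κ * (c + (if P then g else 0) - (1 / 2) ^ M) ≤ S := by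
  have h1 := hasSum_qn.mul_left c
  have h2 : HasSum (fun i => if i = i0 ∧ P then g else 0) (if P then g else 0) := by
    by_cases hP : P
    · simp only [hP, and_true, if_true]
      exact hasSum_ite_eq i0 g
    · simp only [hP, and_false, if_false]
      exact hasSum_zero
  have h3 := ((h1.add h2).sub (hasSum_qn_tail M)).mul_left κ
  rw [mul_one] at h3
  exact hasSum_le h h3 hf

lemma pr_one {M : ℕ} (hM : 1 ≤ M) (i : ℕ) :
    (1 : ℝ) * (-(1 / 96) * qn i + (if i = 0 ∧ True then 1 / 16 else 0)
      - (if M ≤ i then qn i else 0)) ≤ pr M 1 i := by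
  have hq := qn_pos i
  have hsmall := small_above (M := M) (i := i) (k := 1) le_rfl (Dn_pos i) (by
    have h1 := D_trivial (k := 1) (u := un i) (un_pos i).le (un_lt i) (mM_nonneg M)
    rw [mM_one] at h1
    have hS := S1_nonneg (k := 1) (un_pos i).le (un_lt i)
    have hP := P2_nonneg (k := 1) (un_pos i).le (un_lt i)
    push_cast at h1
    linarith)
  have h2 := four_eight' 0 i (Nat.zero_le _)
  rw [pow_zero, mul_one] at h2
  push_cast at hsmall
  have hε0 := εn_pos i
  have hε1 := εn_lt_one i
  unfold pr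
  by_cases hiM : M ≤ i
  · rw [if_neg (by rintro ⟨h, _⟩; omega), if_pos hiM]
    have h1 := D_trivial' (k := 1) (u := 1 - εn i) (by linarith) (by linarith) (mM_nonneg M)
    rw [mM_one] at h1
    push_cast at h1
    nlinarith
  · rw [if_neg hiM]
    push Not at hiM
    have h1 := D_gain (k := 1) le_rfl hε0 hε1.le (mM_nonneg M) (mM_le_one M)
        (c := 1 - An i) (b := 1 / (an i * ln i)) (by have := An_pos i; linarith)
        (by have := an_pos i; have := ln_pos i; positivity)
        (a := an i) (by have := an_ge i; omega) (fun n hn => gain hiM hn)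
    have e1 : (an i : ℝ) * εn i = δn i := by
      unfold εn
      have := an_pos i
      field_simp
    have e2 : 1 / ((an i : ℝ) * ln i) * (2 * (1 : ℕ) / εn i) ≤ δn i := by
      have hl : (2 : ℝ) * 4 ^ (i + 4) * Dn i ≤ ln i := by
        have : 2 * 4 ^ (i + 4) * Dn i ≤ ln i := by rw [ln_eq]; omega
        exact_mod_cast this
      have hkD' : (1 : ℝ) ≤ Dn i := by exact_mod_cast Dn_pos i
      have e3 : 1 / ((an i : ℝ) * ln i) * (2 * (1 : ℕ) / εn i) = 2 * 1 / δn i / ln i := by
        unfold εn
        have := an_pos i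
        have := ln_pos i
        have := δn_pos i
        push_cast
        field_simp
      rw [e3, div_le_iff₀ (ln_pos i), div_le_iff₀ (δn_pos i)]
      have e5 : δn i * δn i * 4 ^ (i + 4) = 1 := by
        unfold δn
        rw [← mul_pow, ← mul_pow]; norm_num
      have hδ := δn_pos i
      calc 2 * (1 : ℝ) ≤ 2 * Dn i := by linarith
        _ = (δn i * δn i) * (2 * 4 ^ (i + 4) * Dn i) := by
          have : (δn i * δn i) * (2 * 4 ^ (i + 4) * (Dn i : ℝ))
            = 2 * Dn i * (δn i * δn i * 4 ^ (i + 4)) := by ring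
          rw [this, e5, mul_one]
        _ ≤ (δn i * δn i) * ln i := mul_le_mul_of_nonneg_left hl (by positivity)
        _ = _ := by ring
    rw [e1, mM_one] at h1
    have hA := An_le i
    have hδ := δn_le i
    have h3 : (1 : ℝ) / 8 ≤ D (mM M) 1 (1 - εn i) := by
      push_cast at h1 e2
      linarith
    have h4 : qn i * (1 / 8) ≤ qn i * D (mM M) 1 (1 - εn i) := mul_le_mul_of_nonneg_left h3 hq.le
    by_cases hi0 : i = 0
    · rw [if_pos ⟨hi0, trivial⟩]
      have : qn i = 1 / 2 := by rw [hi0]; unfold qn; norm_num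
      rw [this] at h4 h2 ⊢
      linarith
    · rw [if_neg (by tauto)]
      nlinarith

/-- The summed drift inequality. -/
theorem drift {M k : ℕ} (hM : 1 ≤ M) (hk : 1 ≤ k) {S : ℝ} (hS : HasSum (pr M k) S) :
    -((k : ℝ) + 1) * (2 * (1 / 2) ^ M) ≤ S := by
  have hp : (0 : ℝ) < (1 / 2) ^ M := by positivity
  have hk' : (1 : ℝ) ≤ k := by exact_mod_cast hk
  rcases mM_cases M k with h | h | ⟨j, hj, h⟩
  · have h0 : 0 ≤ S := by
      refine hS.nonneg (fun i => ?_)
      unfold pr
      have hε0 := εn_pos i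
      have hε1 := εn_lt_one i
      have h1 := D_nonneg_of_zero (k := k) (u := 1 - εn i) (by linarith) (by linarith)
        (mM_nonneg M) h
      have h2 := D_nonneg_of_zero (k := k) (u := un i) (un_pos i).le (un_lt i)
        (mM_nonneg M) h
      have := qn_pos i
      have := sn_pos i
      positivity
    nlinarith
  · subst h
    have h1 := sum_lower hS (pr_one hM)
    rw [if_pos trivial] at h1
    push_cast
    linarith
  · have h1 := sum_lower (P := j + 1 < M) (i0 := j + 1) (κ := (k : ℝ))
      (c := -(1 / 64 * (1 / 4) ^ j)) (g := 1 / 64 * (1 / 4) ^ j) (M := M) hS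
      (fun i => pr_zone hj h i)
    by_cases hjM : j + 1 < M
    · rw [if_pos hjM] at h1
      nlinarith
    · rw [if_neg hjM] at h1
      have hjM' : M = j + 1 := by omega
      have h4 : (1 / (4 : ℝ)) ^ j ≤ 2 * (1 / 2) ^ M := by
        rw [hjM', pow_succ]
        have : (1 / (4 : ℝ)) ^ j ≤ (1 / 2) ^ j :=
          pow_le_pow_left₀ (by norm_num) (by norm_num) j
        linarith
      have h5 : (k : ℝ) * (1 / 4) ^ j ≤ k * (2 * (1 / 2) ^ M) :=
        mul_le_mul_of_nonneg_left h4 (by linarith)
      nlinarith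

end Pool.Agent.H971.FV
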