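import Pool.Agent.H971.FV.Gen
import Pool.Agent.H971.FV.Drift

/-! The counterexample measure and its regime (helper file). -/

open MeasureTheory ProbabilityTheory Filter Topology Set
open scoped ENNReal NNReal unitInterval

namespace Pool.Agent.H971.FV

/-- location of the heavy atoms -/
noncomputable def vn (i : ℕ) : ℝ := 1 - εn i

lemma vn_pos (i : ℕ) : 0 < vn i := by unfold vn; linarith [εn_lt_one i]
lemma vn_lt (i : ℕ) : vn i < 1 := by unfold vn; linarith [εn_pos i]

/-- The measure `Λ`. -/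
noncomputable def Lam : Measure ℝ := Measure.sum (fun i : ℕ =>
  ENNReal.ofReal (qn i * vn i ^ 2) • Measure.dirac (vn i)
    + ENNReal.ofReal (sn i * un i ^ 2) • Measure.dirac (un i))

lemma Lam_apply {s : Set ℝ} (hs : MeasurableSet s) : Lam s = ∑' i : ℕ,
    (ENNReal.ofReal (qn i * vn i ^ 2) * s.indicator 1 (vn i)
    + ENNReal.ofReal (sn i * un i ^ 2) * s.indicator 1 (un i)) := by
  unfold Lam
  rw [Measure.sum_apply _ hs]
  refine tsum_congr (fun i => ?_)
  rw [Measure.add_apply, Measure.smul_apply, Measure.smul_apply, Measure.dirac_apply' _ hs,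
    Measure.dirac_apply' _ hs, smul_eq_mul, smul_eq_mul]

lemma ae_Lam {p : ℝ → Prop} (hp : MeasurableSet {x | p x}) (h1 : ∀ i, p (vn i))
    (h2 : ∀ i, p (un i)) : ∀ᵐ x ∂Lam, p x := by
  rw [ae_iff]
  have : {x | ¬ p x} = {x | p x}ᶜ := rfl
  rw [this, Lam_apply hp.compl]
  refine ENNReal.tsum_eq_zero.2 (fun i => ?_)
  rw [indicator_of_notMem (by simpa using h1 i), indicator_of_notMem (by simpa using h2 i)]
  simp

lemma one_div_sn_le (i : ℕ) : 1 / (sn i : ℝ) ≤ qn i := by
  have h1 : (4608 : ℝ) * 8 ^ i ≤ sn i := by exact_mod_cast sn_ge i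
  have h2 : (2 : ℝ) ^ (i + 1) ≤ 4608 * 8 ^ i := by
    rw [pow_succ]
    have : (2 : ℝ) ^ i ≤ 8 ^ i := pow_le_pow_left₀ (by norm_num) (by norm_num) i
    have : (0 : ℝ) < 8 ^ i := by positivity
    linarith
  unfold qn
  rw [one_div_pow]
  exact one_div_le_one_div_of_le (by positivity) (h2.trans h1)

lemma sn_un (i : ℕ) : (sn i : ℝ) * un i = 1 := by
  unfold un
  have := sn_pos i
  field_simp

lemma sn_un_sq (i : ℕ) : (sn i : ℝ) * un i ^ 2 ≤ qn i := by
  have h : (sn i : ℝ) * un i ^ 2 = 1 / sn i := by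
    unfold un
    have := sn_pos i
    field_simp
  rw [h]; exact one_div_sn_le i

lemma qn_vn_sq (i : ℕ) : qn i * vn i ^ 2 ≤ qn i := by
  have h1 := vn_pos i
  have h2 := vn_lt i
  have h3 : vn i ^ 2 ≤ 1 := pow_le_one₀ h1.le h2.le
  have := qn_pos i
  nlinarith

instance : IsFiniteMeasure Lam := by
  constructor
  rw [Lam_apply MeasurableSet.univ]
  simp only [indicator_univ, Pi.one_apply, mul_one]
  have h1 : Summable (fun i => qn i + qn i) := hasSum_qn.summable.add hasSum_qn.summable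
  refine lt_of_le_of_lt (ENNReal.tsum_le_tsum (g := fun i => ENNReal.ofReal (qn i + qn i))
    (fun i => ?_)) h1.tsum_ofReal_lt_top
  rw [ENNReal.ofReal_add (qn_pos i).le (qn_pos i).le]
  exact add_le_add (ENNReal.ofReal_le_ofReal (qn_vn_sq i)) (ENNReal.ofReal_le_ofReal (sn_un_sq i))

lemma nu_Lam : nu Lam = Measure.sum (fun i : ℕ =>
    ENNReal.ofReal (qn i) • Measure.dirac (vn i)
      + ENNReal.ofReal (sn i) • Measure.dirac (un i)) := by
  unfold nu
  rw [Measure.restrict_eq_self_of_ae_mem (ae_Lam (p := fun x => x ∈ Ioc (0 : ℝ) 1)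
    measurableSet_Ioc (fun i => ⟨vn_pos i, (vn_lt i).le⟩) (fun i => ⟨un_pos i, (un_lt i).le⟩))]
  unfold Lam
  rw [withDensity_sum]
  congr 1
  funext i
  rw [withDensity_add_measure, withDensity_smul_measure, withDensity_smul_measure,
    dirac_withDensity, dirac_withDensity, smul_smul, smul_smul,
    ← ENNReal.ofReal_mul (by have := qn_pos i; positivity),
    ← ENNReal.ofReal_mul (by positivity)]
  have h1 : qn i * vn i ^ 2 * (vn i ^ 2)⁻¹ = qn i := by
    have := vn_pos i
    field_simp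
  have h2 : (sn i : ℝ) * un i ^ 2 * (un i ^ 2)⁻¹ = sn i := by
    have := un_pos i
    field_simp
  rw [h1, h2]

/-- Integrals against `ν`. -/
lemma hasSum_nu {g : ℝ → ℝ} (hg : Integrable g (nu Lam)) :
    HasSum (fun i => qn i * g (vn i) + sn i * g (un i)) (∫ u, g u ∂(nu Lam)) := by
  rw [nu_Lam] at hg ⊢
  refine (hasSum_integral_measure hg).congr_fun ?_ |> fun h => h
  intro i
  have h1 : Integrable g (ENNReal.ofReal (qn i) • Measure.dirac (vn i)) :=
    (integrable_dirac (by simp)).smul_measure ENNReal.ofReal_ne_top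
  have h2 : Integrable g (ENNReal.ofReal (sn i) • Measure.dirac (un i)) :=
    (integrable_dirac (by simp)).smul_measure ENNReal.ofReal_ne_top
  rw [integral_add_measure h1 h2, integral_smul_measure, integral_smul_measure, integral_dirac,
    integral_dirac, ENNReal.toReal_ofReal (qn_pos i).le, ENNReal.toReal_ofReal (sn_pos i).le,
    smul_eq_mul, smul_eq_mul]

lemma expfun_nonneg (x : ℝ) : 0 ≤ Real.exp (-x) - 1 + x := by
  have := Real.add_one_le_exp (-x)
  linarith

lemma expfun_le (x : ℝ) (hx : 0 ≤ x) : Real.exp (-x) - 1 + x ≤ x := by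
  have : Real.exp (-x) ≤ 1 := Real.exp_le_one_iff.2 (by linarith)
  linarith

lemma expfun_le_sq (x : ℝ) (hx : 0 ≤ x) : Real.exp (-x) - 1 + x ≤ x ^ 2 / 2 := by
  have h := Real.quadratic_le_exp_of_nonneg hx
  have h1 : Real.exp (-x) * Real.exp x = 1 := by rw [← Real.exp_add]; simp
  have h2 : Real.exp (-x) ≤ 1 - x + x ^ 2 / 2 := by
    have hpos : 0 < 1 + x + x ^ 2 / 2 := by positivity
    have h3 : Real.exp (-x) * (1 + x + x ^ 2 / 2) ≤ 1 := by
      calc _ ≤ Real.exp (-x) * Real.exp x := mul_le_mul_of_nonneg_left h (Real.exp_pos _).le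
        _ = 1 := h1
    have h4 : 1 ≤ (1 - x + x ^ 2 / 2) * (1 + x + x ^ 2 / 2) := by nlinarith [sq_nonneg (x ^ 2)]
    exact le_of_mul_le_mul_right (h3.trans h4) hpos
  linarith

lemma integrable_Psi (q : ℝ) (hq : 0 ≤ q) :
    Integrable (fun u => Real.exp (-(q * u)) - 1 + q * u) (nu Lam) := by
  refine integrable_nu (by fun_prop) (C := q ^ 2 / 2) (fun u hu => ?_)
  have h0 : 0 ≤ q * u := mul_nonneg hq hu.1.le
  rw [abs_of_nonneg (expfun_nonneg _)]
  have := expfun_le_sq _ h0
  calc _ ≤ _ := this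
    _ = _ := by ring

lemma Psi_pos (q : ℝ) (hq : 0 < q) : 0 < Psi Lam q := by
  have h := hasSum_nu (integrable_Psi q hq.le)
  have hpos : ∀ i, 0 ≤ qn i * (Real.exp (-(q * vn i)) - 1 + q * vn i)
      + sn i * (Real.exp (-(q * un i)) - 1 + q * un i) := fun i =>
    add_nonneg (mul_nonneg (qn_pos i).le (expfun_nonneg _))
      (mul_nonneg (sn_pos i).le (expfun_nonneg _))
  have h0 : 0 < qn 0 * (Real.exp (-(q * vn 0)) - 1 + q * vn 0)
      + sn 0 * (Real.exp (-(q * un 0)) - 1 + q * un 0) := by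
    have h1 : 0 < q * vn 0 := mul_pos hq (vn_pos 0)
    have h2 := Real.add_one_lt_exp (x := -(q * vn 0)) (by linarith)
    have h3 : 0 < qn 0 * (Real.exp (-(q * vn 0)) - 1 + q * vn 0) :=
      mul_pos (qn_pos 0) (by linarith)
    have h4 : 0 ≤ sn 0 * (Real.exp (-(q * un 0)) - 1 + q * un 0) :=
      mul_nonneg (sn_pos 0).le (expfun_nonneg _)
    linarith
  have := hasSum_le (f := fun i => if i = 0 then qn 0 * (Real.exp (-(q * vn 0)) - 1 + q * vn 0)
      + sn 0 * (Real.exp (-(q * un 0)) - 1 + q * un 0) else 0) (fun i => by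
        split_ifs with hi
        · rw [hi]
        · exact hpos i) (hasSum_ite_eq 0 _) h
  exact lt_of_lt_of_le h0 this

lemma Psi_le (N : ℕ) (q : ℝ) (hq : 2 ^ N ≤ q) (hq2 : q ≤ 2 ^ (N + 1)) :
    Psi Lam q ≤ (N + 3) * q := by
  have hq0 : 0 < q := lt_of_lt_of_le (by positivity) hq
  have h := hasSum_nu (integrable_Psi q hq0.le)
  have h1 := hasSum_qn.mul_left (2 * q)
  have h2 : HasSum (fun i => if i < N + 1 then q else 0) (∑ i ∈ Finset.range (N + 1), q) := by
    have : ∑ i ∈ Finset.range (N + 1), q = ∑ i ∈ Finset.range (N + 1), if i < N + 1 then q else 0 :=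
      Finset.sum_congr rfl (fun i hi => by rw [if_pos (Finset.mem_range.1 hi)])
    rw [this]
    refine hasSum_sum_of_ne_finset_zero (fun i hi => ?_)
    rw [if_neg (fun hc => hi (Finset.mem_range.2 hc))]
  have h3 := h1.add h2
  have e : 2 * q * 1 + ∑ i ∈ Finset.range (N + 1), q = (N + 3) * q := by
    rw [Finset.sum_const, Finset.card_range, nsmul_eq_mul]; push_cast; ring
  rw [e] at h3
  refine hasSum_le (fun i => ?_) h h3
  have a1 : qn i * (Real.exp (-(q * vn i)) - 1 + q * vn i) ≤ q * qn i := by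
    have b1 := expfun_le (q * vn i) (mul_nonneg hq0.le (vn_pos i).le)
    have b2 : q * vn i ≤ q * 1 := mul_le_mul_of_nonneg_left (vn_lt i).le hq0.le
    have b3 := mul_le_mul_of_nonneg_left (b1.trans b2) (qn_pos i).le
    linarith
  have a2 : sn i * (Real.exp (-(q * un i)) - 1 + q * un i)
      ≤ q * qn i + (if i < N + 1 then q else 0) := by
    have hqq : 0 ≤ q * qn i := mul_nonneg hq0.le (qn_pos i).le
    have hx : 0 ≤ q * un i := mul_nonneg hq0.le (un_pos i).le
    split_ifs with hi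
    · have b1 := expfun_le (q * un i) hx
      have b2 := mul_le_mul_of_nonneg_left b1 (sn_pos i).le
      have b3 : (sn i : ℝ) * (q * un i) = q := by
        calc (sn i : ℝ) * (q * un i) = q * (sn i * un i) := by ring
          _ = q := by rw [sn_un, mul_one]
      linarith
    · have b1 := expfun_le_sq (q * un i) hx
      have b2 := mul_le_mul_of_nonneg_left b1 (sn_pos i).le
      have b3 : (sn i : ℝ) * ((q * un i) ^ 2 / 2) = q ^ 2 / 2 * (1 / sn i) := by
        unfold un
        have := sn_pos i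
        field_simp
      have b4 : 1 / (sn i : ℝ) ≤ 1 / (4608 * 8 ^ i) :=
        one_div_le_one_div_of_le (by positivity) (by exact_mod_cast sn_ge i)
      have b5 : q ≤ 2 ^ i := hq2.trans (pow_le_pow_right₀ (by norm_num) (by omega))
      have b6 : q ^ 2 / 2 * (1 / (sn i : ℝ)) ≤ q * qn i := by
        have c1 : q ^ 2 / 2 * (1 / (sn i : ℝ)) ≤ q * (2 ^ i) / 2 * (1 / (4608 * 8 ^ i)) := by
          refine mul_le_mul ?_ b4 (by have := sn_pos i; positivity) (by positivity)
          have : q ^ 2 ≤ q * 2 ^ i := by nlinarith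
          linarith
        refine c1.trans ?_
        have c2 : q * (2 ^ i) / 2 * (1 / (4608 * 8 ^ i)) = q * ((2 ^ i) / (9216 * 8 ^ i)) := by
          field_simp; norm_num
        rw [c2]
        refine mul_le_mul_of_nonneg_left ?_ hq0.le
        unfold qn
        rw [one_div_pow, div_le_div_iff₀ (by positivity) (by positivity)]
        have c3 : (2 : ℝ) ^ i * 2 ^ (i + 1) = 2 * 4 ^ i := by
          rw [pow_succ, ← mul_assoc, ← mul_pow]; norm_num; ring
        rw [c3]
        have c4 : (4 : ℝ) ^ i ≤ 8 ^ i := pow_le_pow_left₀ (by norm_num) (by norm_num) i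
        have c5 : (0 : ℝ) < 8 ^ i := by positivity
        linarith
      linarith
  linarith

lemma tsum_harm (N0 : ℕ) :
    ∑' N : ℕ, ENNReal.ofReal (1 / (2 * ((N + N0 : ℕ) + 3 : ℝ))) = ∞ := by
  by_contra hne
  have h1 := ENNReal.summable_toReal hne
  have h2 : Summable (fun N : ℕ => 1 / (2 * ((N + N0 : ℕ) + 3 : ℝ))) := by
    refine h1.congr (fun N => ?_)
    rw [ENNReal.toReal_ofReal (by positivity)]
  have h3 : Summable (fun N : ℕ => 1 / (((N + (N0 + 3) : ℕ)) : ℝ)) := by
    refine (h2.mul_left 2).congr (fun N => ?_)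
    push_cast
    field_simp
    ring
  rw [summable_nat_add_iff (f := fun N : ℕ => 1 / (N : ℝ)) (N0 + 3)] at h3
  exact Real.not_summable_one_div_natCast h3

lemma not_cdi_Lam (a : ℝ) (_ha : 0 < a) : ∫⁻ q in Ioi a, ENNReal.ofReal (1 / Psi Lam q) = ∞ := by
  obtain ⟨N0, hN0⟩ := pow_unbounded_of_one_lt a (one_lt_two (α := ℝ))
  rw [eq_top_iff, ← tsum_harm N0]
  have hmono : Monotone (fun N : ℕ => (2 : ℝ) ^ (N + N0)) := fun m n hmn =>
    pow_le_pow_right₀ (by norm_num) (by omega)
  have hsub : (⋃ N : ℕ, Ioc ((2 : ℝ) ^ (N + N0)) (2 ^ (N + 1 + N0))) ⊆ Ioi a := by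
    intro x hx
    obtain ⟨N, hN⟩ := mem_iUnion.1 hx
    have : (2 : ℝ) ^ N0 ≤ 2 ^ (N + N0) := pow_le_pow_right₀ (by norm_num) (by omega)
    exact lt_of_lt_of_le hN0 (this.trans hN.1.le)
  refine le_trans ?_ (lintegral_mono_set hsub)
  have hd : Pairwise (Function.onFun Disjoint
      (fun N : ℕ => Ioc ((2 : ℝ) ^ (N + N0)) (2 ^ (N + 1 + N0)))) :=
    hmono.pairwise_disjoint_on_Ioc_succ
  rw [lintegral_iUnion (fun N => measurableSet_Ioc) hd]
  refine ENNReal.tsum_le_tsum (fun N => ?_)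
  have hle : ∀ q ∈ Ioc ((2 : ℝ) ^ (N + N0)) (2 ^ (N + 1 + N0)),
      ENNReal.ofReal (1 / (((N + N0 : ℕ) + 3) * 2 ^ (N + N0 + 1))) ≤
        ENNReal.ofReal (1 / Psi Lam q) := by
    intro q hq
    have hq0 : 0 < q := lt_trans (by positivity) hq.1
    refine ENNReal.ofReal_le_ofReal ?_
    have e : N + 1 + N0 = N + N0 + 1 := by ring
    rw [e] at hq
    have h1 := Psi_le (N + N0) q hq.1.le hq.2
    refine one_div_le_one_div_of_le (Psi_pos q hq0) (h1.trans ?_)
    exact mul_le_mul_of_nonneg_left hq.2 (by positivity)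
  refine le_trans ?_ (setLIntegral_mono' measurableSet_Ioc hle)
  rw [setLIntegral_const, Real.volume_Ioc, ← ENNReal.ofReal_mul (by positivity)]
  refine ENNReal.ofReal_le_ofReal (le_of_eq ?_)
  have e : (2 : ℝ) ^ (N + 1 + N0) - 2 ^ (N + N0) = 2 ^ (N + N0) := by
    have : N + 1 + N0 = N + N0 + 1 := by ring
    rw [this, pow_succ]; ring
  rw [e, pow_succ]
  have : (0 : ℝ) < 2 ^ (N + N0) := by positivity
  field_simp

lemma no_dust_Lam : ∫⁻ u in Ioo 0 1, ENNReal.ofReal u ∂(nu Lam) = ∞ := by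
  rw [nu_Lam, ← lintegral_indicator measurableSet_Ioo, lintegral_sum_measure, eq_top_iff]
  have h1 : ∑' _ : ℕ, (1 : ℝ≥0∞) = ∞ := by
    rw [ENNReal.tsum_const_eq_top_of_ne_zero one_ne_zero]
  rw [← h1]
  refine ENNReal.tsum_le_tsum (fun i => ?_)
  rw [lintegral_add_measure, lintegral_smul_measure, lintegral_smul_measure, lintegral_dirac,
    lintegral_dirac]
  refine le_trans ?_ le_add_self
  rw [indicator_of_mem (show un i ∈ Ioo (0 : ℝ) 1 from ⟨un_pos i, un_lt i⟩), smul_eq_mul,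
    ← ENNReal.ofReal_mul (sn_pos i).le, sn_un, ENNReal.ofReal_one]

theorem intensive_Lam : IntensiveInfty Lam where
  finite := inferInstance
  support := by
    have := ae_Lam (p := fun x => x ∈ Icc (0 : ℝ) 1) measurableSet_Icc
      (fun i => ⟨(vn_pos i).le, (vn_lt i).le⟩) (fun i => ⟨(un_pos i).le, (un_lt i).le⟩)
    exact this
  atom_zero := by
    have := ae_Lam (p := fun x => x ≠ 0) (measurableSet_singleton 0).compl
      (fun i => (vn_pos i).ne') (fun i => (un_pos i).ne')
    rw [ae_iff] at this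
    simpa using this
  no_dust := no_dust_Lam
  not_cdi := not_cdi_Lam

theorem Lam_one : Lam {1} = 0 := by
  have := ae_Lam (p := fun x => x ≠ 1) (measurableSet_singleton 1).compl
      (fun i => (vn_lt i).ne) (fun i => (un_lt i).ne)
  rw [ae_iff] at this
  simpa using this

end Pool.Agent.H971.FV
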