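import Pool.Agent.H971.FV.Part

/-! The main argument (helper file). -/

open MeasureTheory ProbabilityTheory Filter Topology Set
open scoped ENNReal NNReal unitInterval

namespace Pool.Agent.H971.FV

section lower

variable {Ω : Type*} [mΩ : MeasurableSpace Ω] {P : Measure Ω} [IsProbabilityMeasure P]
  {ρ : ℝ≥0 → Ω → ProbabilityMeasure I} {α β γ : I → ℝ}

lemma Q_nonneg (h : Part α β γ) (μ : Measure I) [IsProbabilityMeasure μ] : 0 ≤ Q β γ μ := by
  unfold Q
  have hy := integral_mem h.hb μ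
  have hw := integral_mem h.hc μ
  exact div_nonneg (mul_nonneg hy.1 hw.1) (sq_nonneg _)

lemma Q_le (h : Part α β γ) (μ : Measure I) [IsProbabilityMeasure μ] : Q β γ μ ≤ 1 / 4 := by
  unfold Q
  have hy := integral_mem h.hb μ
  have hw := integral_mem h.hc μ
  set y := ∫ t, β t ∂μ
  set w := ∫ t, γ t ∂μ
  rcases eq_or_lt_of_le (show 0 ≤ y + w by linarith [hy.1, hw.1]) with h0 | h0
  · rw [← h0]; norm_num
  · rw [div_le_iff₀ (by positivity)]
    nlinarith [sq_nonneg (y - w)]

lemma Q_meas (hFV : IsFlemingViot Lam P ρ) (h : Part α β γ) (t : ℝ≥0) :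
    Measurable (fun ω => Q β γ (ρ t ω : Measure I)) := by
  unfold Q
  have hw := wm_of_measurable (hFV.meas t)
  exact ((hw.blim h.hb).mul (hw.blim h.hc)).div (((hw.blim h.hb).add (hw.blim h.hc)).pow_const 2)

lemma Q_int (hFV : IsFlemingViot Lam P ρ) (h : Part α β γ) (t : ℝ≥0) :
    Integrable (fun ω => Q β γ (ρ t ω : Measure I)) P :=
  Integrable.of_bound (C := 1 / 4) (Q_meas hFV h t).aestronglyMeasurable
    (Eventually.of_forall (fun ω => by
      rw [Real.norm_eq_abs, abs_of_nonneg (Q_nonneg h _)]; exact Q_le h _))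

lemma EQ_ge_M (hFV : IsFlemingViot Lam P ρ) (h : Part α β γ) (t : ℝ≥0) {M : ℕ} (hM : 1 ≤ M) :
    (1 / 2) * ((∫ s, α s ∂(volume : Measure I)) * (∫ s, β s ∂(volume : Measure I)) *
      (∫ s, γ s ∂(volume : Measure I))) - 2 * (1 / 2) ^ M * t
      ≤ ∫ ω, Q β γ (ρ t ω : Measure I) ∂P := by
  have h1 : ∫ ω, Phi α β γ M (ρ t ω : Measure I) ∂P = Phi α β γ M (volume : Measure I)
      + ∫ p, LPhi α β γ M (ρ p.1.toNNReal p.2 : Measure I) ∂(ts P t) := by
    unfold Phi LPhi
    rw [integral_finsetSum _ (fun n _ => (hFV.integrable_mom (tf_blim h n) t).const_mul _),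
      integral_finsetSum _ (fun n _ => (hFV.integrable_gen (tf_blim h n) t).const_mul _),
      ← Finset.sum_add_distrib]
    refine Finset.sum_congr rfl (fun n _ => ?_)
    rw [integral_const_mul, integral_const_mul, fwd hFV (tf_blim h n) t]
    ring
  have hPhii : Integrable (fun ω => Phi α β γ M (ρ t ω : Measure I)) P := by
    unfold Phi
    exact integrable_finsetSum _ (fun n _ => (hFV.integrable_mom (tf_blim h n) t).const_mul _)
  have hLi : Integrable (fun p : ℝ × Ω => LPhi α β γ M (ρ p.1.toNNReal p.2 : Measure I))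
      (ts P t) := by
    unfold LPhi
    exact integrable_finsetSum _ (fun n _ => (hFV.integrable_gen (tf_blim h n) t).const_mul _)
  have h2 : ∫ ω, Phi α β γ M (ρ t ω : Measure I) ∂P ≤ ∫ ω, Q β γ (ρ t ω : Measure I) ∂P :=
    integral_mono hPhii (Q_int hFV h t) (fun ω => Phi_le_Q h M _)
  have h3 : -(2 * (1 / 2) ^ M) * (t : ℝ)
      ≤ ∫ p, LPhi α β γ M (ρ p.1.toNNReal p.2 : Measure I) ∂(ts P t) := by
    have h4 : ∫ _p : ℝ × Ω, -(2 * (1 / 2 : ℝ) ^ M) ∂(ts P t)
        ≤ ∫ p, LPhi α β γ M (ρ p.1.toNNReal p.2 : Measure I) ∂(ts P t) :=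
      integral_mono (integrable_const _) hLi (fun p => LPhi_ge h hM _)
    refine le_trans (le_of_eq ?_) h4
    have hm : (ts P t).real univ = t := by
      unfold ts
      have hP : P.real univ = 1 := probReal_univ
      rw [← univ_prod_univ, measureReal_prod_prod, hP, mul_one,
        measureReal_restrict_apply MeasurableSet.univ, univ_inter, Real.volume_real_Ioc,
        sub_zero, max_eq_left (NNReal.coe_nonneg t)]
    rw [integral_const, hm, smul_eq_mul, mul_comm]
  have h5 := Phi_ge h M (volume : Measure I)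
  linarith

theorem EQ_ge (hFV : IsFlemingViot Lam P ρ) (h : Part α β γ) (t : ℝ≥0) :
    (1 / 2) * ((∫ s, α s ∂(volume : Measure I)) * (∫ s, β s ∂(volume : Measure I)) *
      (∫ s, γ s ∂(volume : Measure I)))
      ≤ ∫ ω, Q β γ (ρ t ω : Measure I) ∂P := by
  have h1 : Tendsto (fun M : ℕ => (1 / 2) * ((∫ s, α s ∂(volume : Measure I)) *
      (∫ s, β s ∂(volume : Measure I)) *
      (∫ s, γ s ∂(volume : Measure I))) - 2 * (1 / 2 : ℝ) ^ M * t) atTop
      (𝓝 ((1 / 2) * ((∫ s, α s ∂(volume : Measure I)) * (∫ s, β s ∂(volume : Measure I)) *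
      (∫ s, γ s ∂(volume : Measure I))) - 2 * 0 * t)) := by
    refine Tendsto.const_sub _ (Tendsto.mul_const _ (Tendsto.const_mul _ ?_))
    exact tendsto_pow_atTop_nhds_zero_of_lt_one (by norm_num) (by norm_num)
  rw [mul_zero, zero_mul, sub_zero] at h1
  refine le_of_tendsto h1 ?_
  filter_upwards [eventually_ge_atTop 1] with M hM
  exact EQ_ge_M hFV h t hM

end lower

section eves

lemma Part.symm {α β γ : I → ℝ} (h : Part α β γ) : Part α γ β :=
  ⟨h.ha, h.hc, h.hb, fun x => by rcases h.h x with h | h | h <;> tauto⟩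

lemma Q_symm (β γ : I → ℝ) (μ : Measure I) : Q β γ μ = Q γ β μ := by
  unfold Q
  rw [mul_comm, add_comm]

/-- If the first Eve outside `A` is in `B` then the diversity of the complement vanishes. -/
lemma Q_tendsto_aux {α β γ : I → ℝ} (h : Part α β γ) {r : ℕ → ProbabilityMeasure I} {e : ℕ → I}
    (he : Function.Injective e)
    (hr : ∀ i : ℕ, Tendsto (fun n => (r n : Measure I).real {e i} /
      (r n : Measure I).real (e '' {j | j < i})ᶜ) atTop (𝓝 1)) {j : ℕ}
    (hj : ∀ l, l < j → α (e l) = 1) (hb : β (e j) = 1) :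
    Tendsto (fun n => Q β γ (r n : Measure I)) atTop (𝓝 0) := by
  have hpos : ∀ᶠ n in atTop, 0 < (r n : Measure I).real {e j} /
      (r n : Measure I).real (e '' {l | l < j})ᶜ := by
    have := (hr j).eventually (eventually_gt_nhds (show (0 : ℝ) < 1 by norm_num))
    exact this
  have hlim : Tendsto (fun n => ((r n : Measure I).real {e j} /
      (r n : Measure I).real (e '' {l | l < j})ᶜ)⁻¹ - 1) atTop (𝓝 0) := by
    have := ((hr j).inv₀ one_ne_zero).sub_const 1
    simpa using this
  refine squeeze_zero' (Eventually.of_forall (fun n => Q_nonneg h _)) ?_ hlim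
  filter_upwards [hpos] with n hn
  set μ : Measure I := (r n : Measure I) with hμ
  have hfin : ((e '' {l | l < j}) : Set I).Finite := (Set.finite_lt_nat j).image e
  have hmeas : MeasurableSet (e '' {l | l < j})ᶜ := hfin.measurableSet.compl
  have hmem : e j ∈ (e '' {l | l < j})ᶜ := by
    rintro ⟨l, hl, hle⟩
    have := he hle
    simp only [mem_ofPred_eq] at hl
    omega
  set c := μ.real {e j} with hc
  set d := μ.real (e '' {l | l < j})ᶜ with hd
  have hc0 : 0 ≤ c := measureReal_nonneg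
  have hd0 : 0 ≤ d := measureReal_nonneg
  have hcpos : 0 < c := by
    rcases eq_or_lt_of_le hc0 with h0 | h0
    · rw [← h0, zero_div] at hn; exact absurd hn (lt_irrefl _)
    · exact h0
  -- `y ≥ c`
  have hy : c ≤ ∫ t, β t ∂μ := by
    have h1 : ∫ t, ({e j} : Set I).indicator (fun _ => (1 : ℝ)) t ∂μ = c := by
      rw [integral_indicator (measurableSet_singleton _), setIntegral_const, smul_eq_mul, mul_one]
    rw [← h1]
    refine integral_mono ((integrable_const (1 : ℝ)).indicator (measurableSet_singleton _))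
      (integrable_of_bdd h.hb.measurable h.hb.abs_le) (fun t => ?_)
    by_cases ht : t ∈ ({e j} : Set I)
    · rw [indicator_of_mem ht]
      rw [mem_singleton_iff] at ht
      rw [ht, hb]
    · rw [indicator_of_notMem ht]; exact h.hb.nonneg t
  -- `w ≤ d - c`
  have hw : ∫ t, γ t ∂μ ≤ d - c := by
    have h1 : ∫ t, ((e '' {l | l < j})ᶜ \ {e j} : Set I).indicator (fun _ => (1 : ℝ)) t ∂μ
        = d - c := by
      rw [integral_indicator (hmeas.diff (measurableSet_singleton _)), setIntegral_const,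
        smul_eq_mul, mul_one,
        measureReal_sdiff (singleton_subset_iff.2 hmem) (measurableSet_singleton _)]
    rw [← h1]
    refine integral_mono (integrable_of_bdd h.hc.measurable h.hc.abs_le)
      ((integrable_const (1 : ℝ)).indicator (hmeas.diff (measurableSet_singleton _)))
      (fun t => ?_)
    by_cases ht : t ∈ ((e '' {l | l < j})ᶜ \ {e j} : Set I)
    · rw [indicator_of_mem ht]; exact h.hc.le_one t
    · rw [indicator_of_notMem ht]
      have : t ∈ e '' {l | l < j} ∨ t = e j := by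
        by_contra hcon
        push Not at hcon
        exact ht ⟨hcon.1, hcon.2⟩
      rcases this with ⟨l, hl, rfl⟩ | rfl
      · have := hj l hl
        rcases h.h (e l) with h1 | h1 | h1
        · exact h1.2.2.le
        · rw [h1.1] at this; norm_num at this
        · rw [h1.1] at this; norm_num at this
      · rcases h.h (e j) with h1 | h1 | h1
        · exact h1.2.2.le
        · exact h1.2.2.le
        · rw [h1.2.1] at hb; norm_num at hb
  have hw0 := (integral_mem h.hc μ).1
  unfold Q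
  set y := ∫ t, β t ∂μ
  set w := ∫ t, γ t ∂μ
  have hy0 : 0 < y := lt_of_lt_of_le hcpos hy
  rw [inv_div]
  have h1 : y * w / (y + w) ^ 2 ≤ w / y := by
    rw [div_le_div_iff₀ (by positivity) hy0]
    nlinarith [mul_nonneg hw0 hw0, mul_nonneg hy0.le hw0, mul_nonneg (mul_nonneg hw0 hw0) hw0,
      mul_nonneg (mul_nonneg hy0.le hw0) hw0]
  have h2 : w / y ≤ (d - c) / c := by
    rw [div_le_div_iff₀ hy0 hcpos]
    have hdc : 0 ≤ d - c := le_trans hw0 hw
    nlinarith
  have h3 : (d - c) / c = d / c - 1 := by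
    rw [sub_div, div_self hcpos.ne']
  linarith

/-- If some Eve is outside `A` then the diversity of the complement of `A` vanishes. -/
lemma Q_tendsto {α β γ : I → ℝ} (h : Part α β γ) {r : ℕ → ProbabilityMeasure I} {e : ℕ → I}
    (he : Function.Injective e)
    (hr : ∀ i : ℕ, Tendsto (fun n => (r n : Measure I).real {e i} /
      (r n : Measure I).real (e '' {j | j < i})ᶜ) atTop (𝓝 1)) {j : ℕ} (hj : α (e j) = 0) :
    Tendsto (fun n => Q β γ (r n : Measure I)) atTop (𝓝 0) := by
  classical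
  have hex : ∃ j, α (e j) = 0 := ⟨j, hj⟩
  set j0 := Nat.find hex with hj0
  have h1 : α (e j0) = 0 := Nat.find_spec hex
  have h2 : ∀ l, l < j0 → α (e l) = 1 := by
    intro l hl
    have := Nat.find_min hex hl
    rcases h.h (e l) with h3 | h3 | h3
    · exact h3.1
    · exact absurd h3.1 this
    · exact absurd h3.1 this
  rcases h.h (e j0) with h3 | h3 | h3
  · rw [h3.1] at h1; norm_num at h1
  · exact Q_tendsto_aux h he hr h2 h3.2.1
  · simp_rw [Q_symm β γ]
    exact Q_tendsto_aux h.symm he hr h2 h3.2.2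

end eves

section cells

/-- indicator of `[a, 1]` -/
noncomputable def gi (a : ℝ) (x : I) : ℝ := if a ≤ (x : ℝ) then 1 else 0

lemma gi_blim (a : ℝ) : BLim (gi a) := by
  refine ⟨fun k => ⟨fun x => max 0 (1 - k * max 0 (a - x)), by fun_prop⟩, fun k x => ?_,
    fun x => ?_⟩
  · simp only [ContinuousMap.coe_mk]
    refine ⟨le_max_left _ _, max_le zero_le_one ?_⟩
    have : 0 ≤ (k : ℝ) * max 0 (a - x) := mul_nonneg (Nat.cast_nonneg _) (le_max_left _ _)
    linarith
  · simp only [ContinuousMap.coe_mk]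
    unfold gi
    split_ifs with hx
    · have : max 0 (a - (x : ℝ)) = 0 := max_eq_left (by linarith)
      simp only [this, mul_zero, sub_zero]
      rw [max_eq_right zero_le_one]
      exact tendsto_const_nhds
    · push Not at hx
      have hp : 0 < a - (x : ℝ) := by linarith
      have hm : max 0 (a - (x : ℝ)) = a - x := max_eq_right hp.le
      rw [hm]
      refine tendsto_const_nhds.congr' ?_
      obtain ⟨K, hK⟩ := exists_nat_gt (1 / (a - (x : ℝ)))
      filter_upwards [eventually_ge_atTop K] with k hk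
      symm
      apply max_eq_left
      have h1 : 1 / (a - (x : ℝ)) < k := lt_of_lt_of_le hK (by exact_mod_cast hk)
      rw [div_lt_iff₀ hp] at h1
      linarith

lemma gi_int (a : ℝ) (h0 : 0 ≤ a) (h1 : a ≤ 1) : ∫ x, gi a x ∂(volume : Measure I) = 1 - a := by
  have e : gi a = (Ici (⟨a, h0, h1⟩ : I)).indicator (fun _ => (1 : ℝ)) := by
    funext x
    unfold gi
    by_cases hx : a ≤ (x : ℝ)
    · rw [if_pos hx, indicator_of_mem]
      exact hx
    · rw [if_neg hx, indicator_of_notMem]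
      exact hx
  rw [e, integral_indicator measurableSet_Ici, setIntegral_const, smul_eq_mul, mul_one,
    measureReal_def, unitInterval.volume_Ici, ENNReal.toReal_ofReal (by simpa using h1)]

noncomputable def cα (L i : ℕ) (x : I) : ℝ := gi (i / L) x * (1 - gi ((i + 1) / L) x)
noncomputable def cβ (L i : ℕ) (x : I) : ℝ := (1 - cα L i x) * (1 - gi (1 / 2) x)
noncomputable def cγ (L i : ℕ) (x : I) : ℝ := (1 - cα L i x) * gi (1 / 2) x

lemma gi_cases (a : ℝ) (x : I) : gi a x = 0 ∨ gi a x = 1 := by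
  unfold gi; split_ifs <;> simp

lemma cell_part (L i : ℕ) : Part (cα L i) (cβ L i) (cγ L i) where
  ha := (gi_blim _).mul (gi_blim _).compl
  hb := ((gi_blim _).mul (gi_blim _).compl).compl.mul (gi_blim _).compl
  hc := ((gi_blim _).mul (gi_blim _).compl).compl.mul (gi_blim _)
  h := fun x => by
    unfold cβ cγ cα
    rcases gi_cases (i / L) x with h1 | h1 <;> rcases gi_cases ((i + 1) / L) x with h2 | h2 <;>
      rcases gi_cases (1 / 2) x with h3 | h3 <;> rw [h1, h2, h3] <;> norm_num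

lemma cα_eq_one {L i : ℕ} {x : I} (h : cα L i x ≠ 0) :
    (i : ℝ) / L ≤ x ∧ (x : ℝ) < (i + 1) / L := by
  unfold cα gi at h
  split_ifs at h with h1 h2 h2
  · norm_num at h
  · exact ⟨h1, not_le.1 h2⟩
  · norm_num at h
  · norm_num at h

lemma cell_disj {L i i' : ℕ} (hL : 1 ≤ L) {x : I} (h : cα L i x ≠ 0) (h' : cα L i' x ≠ 0) :
    i = i' := by
  obtain ⟨h1, h2⟩ := cα_eq_one h
  obtain ⟨h3, h4⟩ := cα_eq_one h'
  have hL' : (0 : ℝ) < L := by exact_mod_cast hL
  rw [div_le_iff₀ hL'] at h1 h3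
  rw [lt_div_iff₀ hL'] at h2 h4
  have h5 : (i : ℝ) < i' + 1 := by linarith
  have h6 : (i' : ℝ) < i + 1 := by linarith
  have h5' : i < i' + 1 := by exact_mod_cast h5
  have h6' : i' < i + 1 := by exact_mod_cast h6
  omega

lemma cell_close {L i : ℕ} (hL : 1 ≤ L) {x y : I} (h : cα L i x ≠ 0) (h' : cα L i y ≠ 0) :
    |(x : ℝ) - y| < 1 / L := by
  obtain ⟨h1, h2⟩ := cα_eq_one h
  obtain ⟨h3, h4⟩ := cα_eq_one h'
  have hL' : (0 : ℝ) < L := by exact_mod_cast hL
  rw [add_div] at h2 h4
  rw [abs_lt]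
  constructor <;> linarith

lemma cα_int {L i : ℕ} (hi : i < L) : ∫ x, cα L i x ∂(volume : Measure I) = 1 / L := by
  have hL : (0 : ℝ) < L := by exact_mod_cast (show 0 < L by omega)
  have e : cα L i = fun x => gi (i / L) x - gi ((i + 1) / L) x := by
    funext x
    unfold cα gi
    have hlt : (i : ℝ) / L < (i + 1) / L := by
      rw [div_lt_div_iff_of_pos_right hL]; linarith
    split_ifs with h1 h2 h2
    · norm_num
    · norm_num
    · exact absurd (hlt.le.trans h2) h1
    · norm_num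
  have h1 : (i : ℝ) / L ≤ 1 := by
    rw [div_le_one hL]; exact_mod_cast hi.le
  have h2 : ((i : ℝ) + 1) / L ≤ 1 := by
    rw [div_le_one hL]; exact_mod_cast hi
  rw [e, integral_sub (integrable_of_bdd (gi_blim _).measurable (gi_blim _).abs_le)
    (integrable_of_bdd (gi_blim _).measurable (gi_blim _).abs_le),
    gi_int _ (by positivity) h1, gi_int _ (by positivity) h2]
  rw [add_div]; ring

lemma cβ_int {L i : ℕ} (hL : 4 ≤ L) (hi : i < L) :
    1 / 4 ≤ ∫ x, cβ L i x ∂(volume : Measure I) := by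
  have hL' : (4 : ℝ) ≤ L := by exact_mod_cast hL
  have h1 : ∫ x, ((1 - gi (1 / 2) x) - cα L i x) ∂(volume : Measure I) = 1 / 2 - 1 / L := by
    rw [integral_sub (integrable_of_bdd (gi_blim _).compl.measurable (gi_blim _).compl.abs_le)
      (integrable_of_bdd (cell_part L i).ha.measurable (cell_part L i).ha.abs_le),
      integral_sub (integrable_const _)
      (integrable_of_bdd (gi_blim _).measurable (gi_blim _).abs_le), cα_int hi,
      gi_int _ (by norm_num) (by norm_num)]
    simp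
  have h2 : 1 / (L : ℝ) ≤ 1 / 4 := one_div_le_one_div_of_le (by norm_num) hL'
  have h3 : ∫ x, ((1 - gi (1 / 2) x) - cα L i x) ∂(volume : Measure I)
      ≤ ∫ x, cβ L i x ∂(volume : Measure I) := by
    refine integral_mono
      ((integrable_of_bdd (gi_blim _).compl.measurable (gi_blim _).compl.abs_le).sub
        (integrable_of_bdd (cell_part L i).ha.measurable (cell_part L i).ha.abs_le))
      (integrable_of_bdd (cell_part L i).hb.measurable (cell_part L i).hb.abs_le) (fun x => ?_)
    have ha := (cell_part L i).ha.nonneg x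
    simp only [cβ]
    rcases gi_cases (1 / 2) x with h | h <;> rw [h] <;> linarith
  linarith

lemma cγ_int {L i : ℕ} (hL : 4 ≤ L) (hi : i < L) :
    1 / 4 ≤ ∫ x, cγ L i x ∂(volume : Measure I) := by
  have hL' : (4 : ℝ) ≤ L := by exact_mod_cast hL
  have h1 : ∫ x, (gi (1 / 2) x - cα L i x) ∂(volume : Measure I) = 1 / 2 - 1 / L := by
    rw [integral_sub (integrable_of_bdd (gi_blim _).measurable (gi_blim _).abs_le)
      (integrable_of_bdd (cell_part L i).ha.measurable (cell_part L i).ha.abs_le), cα_int hi,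
      gi_int _ (by norm_num) (by norm_num)]
    norm_num
  have h2 : 1 / (L : ℝ) ≤ 1 / 4 := one_div_le_one_div_of_le (by norm_num) hL'
  have h3 : ∫ x, (gi (1 / 2) x - cα L i x) ∂(volume : Measure I)
      ≤ ∫ x, cγ L i x ∂(volume : Measure I) := by
    refine integral_mono
      ((integrable_of_bdd (gi_blim _).measurable (gi_blim _).abs_le).sub
        (integrable_of_bdd (cell_part L i).ha.measurable (cell_part L i).ha.abs_le))
      (integrable_of_bdd (cell_part L i).hc.measurable (cell_part L i).hc.abs_le) (fun x => ?_)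
    have ha := (cell_part L i).ha.nonneg x
    simp only [cγ]
    rcases gi_cases (1 / 2) x with h | h <;> rw [h] <;> linarith
  linarith

end cells

section final

variable {Ω : Type*} [mΩ : MeasurableSpace Ω] {P : Measure Ω} [IsProbabilityMeasure P]
  {ρ : ℝ≥0 → Ω → ProbabilityMeasure I}

/-- limsup of the diversity outside the `i`-th cell -/
noncomputable def Z (ρ : ℝ≥0 → Ω → ProbabilityMeasure I) (L i : ℕ) (ω : Ω) : ℝ≥0∞ :=
  limsup (fun n : ℕ => ENNReal.ofReal (Q (cβ L i) (cγ L i) (ρ n ω : Measure I))) atTop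

noncomputable def ZZ (ρ : ℝ≥0 → Ω → ProbabilityMeasure I) (L : ℕ) (ω : Ω) : ℝ≥0∞ :=
  ∑ i ∈ Finset.range L, Z ρ L i ω

lemma Z_meas (hFV : IsFlemingViot Lam P ρ) (L i : ℕ) : Measurable (Z ρ L i) := by
  refine Measurable.limsup (fun n => ?_)
  exact (Q_meas hFV (cell_part L i) n).ennreal_ofReal

lemma Z_le (ρ : ℝ≥0 → Ω → ProbabilityMeasure I) (L i : ℕ) (ω : Ω) :
    Z ρ L i ω ≤ ENNReal.ofReal (1 / 4) := by
  unfold Z
  refine limsup_le_of_le (by isBoundedDefault) (Eventually.of_forall (fun n => ?_))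
  exact ENNReal.ofReal_le_ofReal (Q_le (cell_part L i) _)

lemma Z_int (hFV : IsFlemingViot Lam P ρ) {L i : ℕ} (hL : 4 ≤ L) (hi : i < L) :
    ENNReal.ofReal (1 / (32 * L)) ≤ ∫⁻ ω, Z ρ L i ω ∂P := by
  have hL' : (0 : ℝ) < L := by exact_mod_cast (show 0 < L by omega)
  have h1 : ∀ n : ℕ, ENNReal.ofReal (1 / (32 * L))
      ≤ ∫⁻ ω, ENNReal.ofReal (Q (cβ L i) (cγ L i) (ρ n ω : Measure I)) ∂P := by
    intro n
    rw [← ofReal_integral_eq_lintegral_ofReal (Q_int hFV (cell_part L i) n)
      (Eventually.of_forall (fun ω => Q_nonneg (cell_part L i) _))]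
    refine ENNReal.ofReal_le_ofReal (le_trans ?_ (EQ_ge hFV (cell_part L i) n))
    rw [cα_int hi]
    have hb := cβ_int hL hi
    have hc := cγ_int hL hi
    have h2 : (1 : ℝ) / 16 ≤ (∫ x, cβ L i x ∂(volume : Measure I)) *
        (∫ x, cγ L i x ∂(volume : Measure I)) := by nlinarith
    have h3 : 0 < 1 / (L : ℝ) := by positivity
    calc 1 / (32 * (L : ℝ)) = 1 / 2 * (1 / L * (1 / 16)) := by field_simp; norm_num
      _ ≤ 1 / 2 * (1 / L * ((∫ x, cβ L i x ∂(volume : Measure I)) *
        (∫ x, cγ L i x ∂(volume : Measure I)))) := by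
          apply mul_le_mul_of_nonneg_left _ (by norm_num)
          exact mul_le_mul_of_nonneg_left h2 h3.le
      _ = _ := by ring
  have h2 := limsup_lintegral_le (μ := P) (f := fun (n : ℕ) ω =>
      ENNReal.ofReal (Q (cβ L i) (cγ L i) (ρ n ω : Measure I))) (fun _ => ENNReal.ofReal (1 / 4))
    (fun n => (Q_meas hFV (cell_part L i) n).ennreal_ofReal)
    (fun n => Eventually.of_forall (fun ω => ENNReal.ofReal_le_ofReal (Q_le (cell_part L i) _)))
    (by rw [lintegral_const, measure_univ, mul_one]; exact ENNReal.ofReal_ne_top)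
  refine le_trans ?_ h2
  refine le_limsup_of_frequently_le (Eventually.frequently (Eventually.of_forall h1))
    (by isBoundedDefault)

lemma ZZ_int (hFV : IsFlemingViot Lam P ρ) {L : ℕ} (hL : 4 ≤ L) :
    ENNReal.ofReal (1 / 32) ≤ ∫⁻ ω, ZZ ρ L ω ∂P := by
  unfold ZZ
  rw [lintegral_finsetSum _ (fun i _ => Z_meas hFV L i)]
  have hL' : (0 : ℝ) < L := by exact_mod_cast (show 0 < L by omega)
  calc ENNReal.ofReal (1 / 32) = ∑ i ∈ Finset.range L, ENNReal.ofReal (1 / (32 * L)) := by
        rw [Finset.sum_const, Finset.card_range, nsmul_eq_mul, ← ENNReal.ofReal_natCast,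
          ← ENNReal.ofReal_mul hL'.le]
        congr 1
        field_simp
    _ ≤ _ := Finset.sum_le_sum (fun i hi => Z_int hFV hL (Finset.mem_range.1 hi))

lemma Z_zero {L i : ℕ} {ω : Ω} {e : ℕ → I}
    (he : Function.Injective e)
    (hr : ∀ i : ℕ, Tendsto (fun t => (ρ t ω : Measure I).real {e i} /
      (ρ t ω : Measure I).real (e '' {j | j < i})ᶜ) atTop (𝓝 1)) {j : ℕ}
    (hj : cα L i (e j) = 0) : Z ρ L i ω = 0 := by
  have hr' : ∀ i : ℕ, Tendsto (fun n : ℕ => (ρ n ω : Measure I).real {e i} /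
      (ρ n ω : Measure I).real (e '' {j | j < i})ᶜ) atTop (𝓝 1) := fun i =>
    (hr i).comp tendsto_natCast_atTop_atTop
  have h1 := Q_tendsto (cell_part L i) he (r := fun n : ℕ => ρ n ω) hr' hj
  have h2 := (ENNReal.continuous_ofReal.tendsto 0).comp h1
  rw [ENNReal.ofReal_zero] at h2
  exact h2.limsup_eq

lemma ZZ_le {ω : Ω} (hω : HasEves (fun t => ρ t ω)) {L : ℕ} (hL : 1 ≤ L) :
    ZZ ρ L ω ≤ ENNReal.ofReal (1 / 4) := by
  obtain ⟨e, he, hr⟩ := hω
  unfold ZZ
  by_cases hex : ∃ i ∈ Finset.range L, cα L i (e 0) ≠ 0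
  · obtain ⟨i0, hi0, hne⟩ := hex
    rw [Finset.sum_eq_single_of_mem i0 hi0]
    · exact Z_le ρ L i0 ω
    · intro i _ hii
      have : cα L i (e 0) = 0 := by
        by_contra hc
        exact hii (cell_disj hL hc hne)
      exact Z_zero he hr this
  · push Not at hex
    rw [Finset.sum_eq_zero (fun i hi => Z_zero he hr (hex i hi))]
    exact bot_le

lemma ZZ_tendsto {ω : Ω} (hω : HasEves (fun t => ρ t ω)) :
    Tendsto (fun L => ZZ ρ L ω) atTop (𝓝 0) := by
  obtain ⟨e, he, hr⟩ := hω
  have hne : e 0 ≠ e 1 := fun h => by have := he h; omega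
  have hpos : 0 < |((e 0 : I) : ℝ) - (e 1 : I)| := by
    rw [abs_pos, sub_ne_zero]
    intro h
    exact hne (Subtype.ext h)
  obtain ⟨K, hK⟩ := exists_nat_gt (1 / |((e 0 : I) : ℝ) - (e 1 : I)|)
  refine tendsto_const_nhds.congr' ?_
  filter_upwards [eventually_ge_atTop (K + 1)] with L hL
  symm
  unfold ZZ
  refine Finset.sum_eq_zero (fun i _ => ?_)
  by_cases h0 : cα L i (e 0) = 0
  · exact Z_zero he hr h0
  by_cases h1 : cα L i (e 1) = 0
  · exact Z_zero he hr h1
  exfalso
  have h2 := cell_close (by omega) h0 h1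
  have hLK : (K : ℝ) ≤ L := by exact_mod_cast (show K ≤ L by omega)
  have h3 : 1 / |((e 0 : I) : ℝ) - (e 1 : I)| < L := lt_of_lt_of_le hK hLK
  have hL' : (0 : ℝ) < L := by exact_mod_cast (show 0 < L by omega)
  rw [div_lt_iff₀ hpos] at h3
  rw [lt_div_iff₀ hL'] at h2
  linarith

theorem not_ae_hasEves (hFV : IsFlemingViot Lam P ρ) : ¬ ∀ᵐ ω ∂P, HasEves (fun t => ρ t ω) := by
  intro hae
  have h1 : Tendsto (fun L => ∫⁻ ω, ZZ ρ (L + 4) ω ∂P) atTop (𝓝 (∫⁻ _ω, 0 ∂P)) := by
    refine tendsto_lintegral_of_dominated_convergence (fun _ => ENNReal.ofReal (1 / 4))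
      (fun L => Finset.measurable_sum _ (fun i _ => Z_meas hFV (L + 4) i)) (fun L => ?_)
      (by rw [lintegral_const, measure_univ, mul_one]; exact ENNReal.ofReal_ne_top) ?_
    · filter_upwards [hae] with ω hω
      exact ZZ_le hω (by omega)
    · filter_upwards [hae] with ω hω
      exact (tendsto_add_atTop_iff_nat 4).2 (ZZ_tendsto hω)
  rw [lintegral_zero] at h1
  have h2 : ENNReal.ofReal (1 / 32) ≤ 0 :=
    ge_of_tendsto' h1 (fun L => ZZ_int hFV (by omega))
  have h3 : (0 : ℝ≥0∞) < ENNReal.ofReal (1 / 32) := ENNReal.ofReal_pos.2 (by norm_num)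
  exact absurd h2 (not_le.2 h3)

end final

end Pool.Agent.H971.FV
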