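import Mathlib

/-! Negative binomial weights and the basic drift functional (helper file). -/

open Filter Topology

namespace Pool.Agent.H971.FV

/-- `P(J = j)` for the negative binomial law with parameters `k+1`, `u`. -/
noncomputable def nb (k : ℕ) (u : ℝ) (j : ℕ) : ℝ :=
  ((k + j).choose k : ℝ) * u ^ j * (1 - u) ^ (k + 1)

lemma nb_nonneg {k : ℕ} {u : ℝ} (h0 : 0 ≤ u) (h1 : u ≤ 1) (j : ℕ) : 0 ≤ nb k u j := by
  unfold nb
  have : 0 ≤ 1 - u := by linarith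
  positivity

lemma hasSum_nb {k : ℕ} {u : ℝ} (h0 : 0 ≤ u) (h1 : u < 1) : HasSum (nb k u) 1 := by
  have h := hasSum_choose_mul_geometric_of_norm_lt_one k (r := u) (by
    rw [Real.norm_eq_abs, abs_of_nonneg h0]; exact h1)
  have h2 := h.mul_right ((1 - u) ^ (k + 1))
  have h3 : (1 / (1 - u) ^ (k + 1)) * (1 - u) ^ (k + 1) = (1 : ℝ) := by
    have : (1 - u) ^ (k + 1) ≠ 0 := pow_ne_zero _ (by linarith)
    field_simp
  rw [h3] at h2
  refine h2.congr_fun ?_ |> fun h => h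
  intro j
  simp only [nb]
  rw [Nat.add_comm k j]

/-- `j * P_k(J = j) = (k+1) u/(1-u) P_{k+1}(J = j-1)`. -/
lemma nb_step {k : ℕ} {u : ℝ} (h1 : u < 1) (j : ℕ) :
    ((j + 1 : ℕ) : ℝ) * nb k u (j + 1) = (k + 1) * (u / (1 - u)) * nb (k + 1) u j := by
  have hne : (1 - u) ≠ 0 := by linarith
  have hc : ((j + 1 : ℕ) : ℝ) * ((k + (j + 1)).choose k : ℝ)
      = (k + 1) * ((k + 1 + j).choose (k + 1) : ℝ) := by
    have h := Nat.choose_succ_right_eq (k + (j + 1)) k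
    have h' : k + (j + 1) - k = j + 1 := by omega
    rw [h'] at h
    have h2 : k + (j + 1) = k + 1 + j := by ring
    rw [h2] at h ⊢
    have h3 : ((((k + 1 + j).choose (k + 1)) * (k + 1) : ℕ) : ℝ)
      = (((k + 1 + j).choose k) * (j + 1) : ℕ) := by exact_mod_cast h
    push_cast at h3 ⊢
    linarith
  unfold nb
  calc ((j + 1 : ℕ) : ℝ) * (((k + (j + 1)).choose k : ℝ) * u ^ (j + 1) * (1 - u) ^ (k + 1))
      = (((j + 1 : ℕ) : ℝ) * ((k + (j + 1)).choose k : ℝ)) * (u ^ (j + 1) * (1 - u) ^ (k + 1)) := by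
        ring
    _ = ((k + 1) * ((k + 1 + j).choose (k + 1) : ℝ)) * (u ^ (j + 1) * (1 - u) ^ (k + 1)) := by
        rw [hc]
    _ = _ := by
        field_simp
        ring

lemma hasSum_mean {k : ℕ} {u : ℝ} (h0 : 0 ≤ u) (h1 : u < 1) :
    HasSum (fun j : ℕ => (j : ℝ) * nb k u j) ((k + 1) * (u / (1 - u))) := by
  rw [← hasSum_nat_add_iff' 1]
  simp only [Finset.range_one, Finset.sum_singleton, Nat.cast_zero, zero_mul, sub_zero]
  have h := (hasSum_nb (k := k + 1) h0 h1).mul_left ((k + 1) * (u / (1 - u)))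
  rw [mul_one] at h
  refine h.congr_fun ?_ |> fun h => h
  intro j
  exact nb_step h1 j

lemma hasSum_fact2 {k : ℕ} {u : ℝ} (h0 : 0 ≤ u) (h1 : u < 1) :
    HasSum (fun j : ℕ => (j : ℝ) * (j - 1) * nb k u j)
      ((k + 1) * (k + 2) * (u / (1 - u)) ^ 2) := by
  rw [← hasSum_nat_add_iff' 1]
  simp only [Finset.range_one, Finset.sum_singleton, Nat.cast_zero, zero_mul, sub_zero]
  have h := (hasSum_mean (k := k + 1) h0 h1).mul_left ((k + 1) * (u / (1 - u)))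
  have e : ((k : ℝ) + 1) * (u / (1 - u)) * (((k + 1 : ℕ) : ℝ) + 1) * (u / (1 - u))
      = (k + 1) * (k + 2) * (u / (1 - u)) ^ 2 := by push_cast; ring
  rw [← mul_assoc, e] at h
  refine h.congr_fun ?_ |> fun h => h
  intro j
  have := nb_step (k := k) h1 j
  push_cast at this ⊢
  calc ((j : ℝ) + 1) * (j + 1 - 1) * nb k u (j + 1) = j * ((j + 1) * nb k u (j + 1)) := by ring
    _ = j * ((k + 1) * (u / (1 - u)) * nb (k + 1) u j) := by rw [this]
    _ = _ := by ring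

/-- `P(J = j) ≤ 1 - u`. -/
lemma nb_le {k : ℕ} {u : ℝ} (h0 : 0 ≤ u) (h1 : u ≤ 1) (j : ℕ) : nb k u j ≤ 1 - u := by
  have h := add_pow (1 - u) u (k + j)
  have h2 : (1 - u + u) ^ (k + j) = 1 := by rw [sub_add_cancel, one_pow]
  rw [h2] at h
  have hmem : k ∈ Finset.range (k + j + 1) := by simp
  have hle := Finset.single_le_sum (f := fun m => (1 - u) ^ m * u ^ (k + j - m) * ((k + j).choose m : ℝ))
    (fun i _ => by
      have : 0 ≤ 1 - u := by linarith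
      positivity) hmem
  rw [← h] at hle
  simp only [Nat.add_sub_cancel_left] at hle
  have h3 : 0 ≤ 1 - u := by linarith
  calc nb k u j = ((1 - u) ^ k * u ^ j * ((k + j).choose k : ℝ)) * (1 - u) := by unfold nb; ring
    _ ≤ 1 * (1 - u) := mul_le_mul_of_nonneg_right hle h3
    _ = 1 - u := one_mul _

/-- `P(J ≥ 2)` -/
noncomputable def P2 (k : ℕ) (u : ℝ) : ℝ := 1 - (1 - u) ^ (k + 1) * (1 + (k + 1) * u)

lemma nb_zero (k : ℕ) (u : ℝ) : nb k u 0 = (1 - u) ^ (k + 1) := by simp [nb]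

lemma nb_one (k : ℕ) (u : ℝ) : nb k u 1 = (k + 1) * u * (1 - u) ^ (k + 1) := by
  simp [nb]

lemma P2_eq (k : ℕ) (u : ℝ) : P2 k u = 1 - nb k u 0 - nb k u 1 := by
  rw [nb_zero, nb_one, P2]; ring

lemma hasSum_P2 {k : ℕ} {u : ℝ} (h0 : 0 ≤ u) (h1 : u < 1) :
    HasSum (fun i : ℕ => nb k u (i + 2)) (P2 k u) := by
  rw [hasSum_nat_add_iff (f := nb k u) 2]
  have h := hasSum_nb (k := k) h0 h1
  have e : P2 k u + ∑ i ∈ Finset.range 2, nb k u i = 1 := by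
    rw [P2_eq, Finset.sum_range_succ, Finset.sum_range_one]; ring
  rw [e]; exact h

lemma P2_nonneg {k : ℕ} {u : ℝ} (h0 : 0 ≤ u) (h1 : u < 1) : 0 ≤ P2 k u :=
  (hasSum_P2 h0 h1).nonneg (fun _ => nb_nonneg h0 h1.le _)

lemma P2_le_one {k : ℕ} {u : ℝ} (h0 : 0 ≤ u) (h1 : u < 1) : P2 k u ≤ 1 := by
  rw [P2_eq]
  have := nb_nonneg (k := k) h0 h1.le 0
  have := nb_nonneg (k := k) h0 h1.le 1
  linarith

/-- `E[(J-1)^+]`. -/
noncomputable def S1 (k : ℕ) (u : ℝ) : ℝ := ∑' i : ℕ, ((i : ℝ) + 1) * nb k u (i + 2)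

lemma hasSum_mean2 {k : ℕ} {u : ℝ} (h0 : 0 ≤ u) (h1 : u < 1) :
    HasSum (fun i : ℕ => ((i : ℝ) + 2) * nb k u (i + 2)) ((k + 1) * (u / (1 - u)) - nb k u 1) := by
  have h := (hasSum_nat_add_iff' (f := fun j : ℕ => (j : ℝ) * nb k u j) 2).2
    (hasSum_mean (k := k) h0 h1)
  simp only [Finset.sum_range_succ, Finset.sum_range_zero, Nat.cast_zero, zero_mul, zero_add,
    Nat.cast_one, one_mul, Nat.cast_add, Nat.cast_ofNat] at h
  exact h

lemma hasSum_fact22 {k : ℕ} {u : ℝ} (h0 : 0 ≤ u) (h1 : u < 1) :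
    HasSum (fun i : ℕ => ((i : ℝ) + 2) * (i + 1) * nb k u (i + 2))
      ((k + 1) * (k + 2) * (u / (1 - u)) ^ 2) := by
  have h := (hasSum_nat_add_iff' (f := fun j : ℕ => (j : ℝ) * (j - 1) * nb k u j) 2).2
    (hasSum_fact2 (k := k) h0 h1)
  simp only [Finset.sum_range_succ, Finset.sum_range_zero, Nat.cast_zero, zero_mul, zero_add,
    Nat.cast_one, one_mul, Nat.cast_add, Nat.cast_ofNat, sub_self, sub_zero] at h
  refine h.congr_fun ?_ |> fun h => h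
  intro i; ring

lemma summable_S1 {k : ℕ} {u : ℝ} (h0 : 0 ≤ u) (h1 : u < 1) :
    Summable (fun i : ℕ => ((i : ℝ) + 1) * nb k u (i + 2)) := by
  refine Summable.of_nonneg_of_le (fun i => ?_) (fun i => ?_) (hasSum_mean2 (k := k) h0 h1).summable
  · have := nb_nonneg (k := k) h0 h1.le (i + 2); positivity
  · have := nb_nonneg (k := k) h0 h1.le (i + 2)
    nlinarith

lemma S1_le_mean {k : ℕ} {u : ℝ} (h0 : 0 ≤ u) (h1 : u < 1) :
    S1 k u ≤ (k + 1) * (u / (1 - u)) := by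
  have h := hasSum_mean2 (k := k) h0 h1
  have h2 : S1 k u ≤ (k + 1) * (u / (1 - u)) - nb k u 1 := by
    refine hasSum_le (fun i => ?_) (summable_S1 h0 h1).hasSum h
    have := nb_nonneg (k := k) h0 h1.le (i + 2)
    nlinarith
  have := nb_nonneg (k := k) h0 h1.le 1
  linarith

lemma S1_le_fact {k : ℕ} {u : ℝ} (h0 : 0 ≤ u) (h1 : u < 1) :
    S1 k u ≤ (k + 1) * (k + 2) * (u / (1 - u)) ^ 2 / 2 := by
  have h := (hasSum_fact22 (k := k) h0 h1).div_const 2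
  refine hasSum_le (fun i => ?_) (summable_S1 h0 h1).hasSum h
  have := nb_nonneg (k := k) h0 h1.le (i + 2)
  have hi : (0 : ℝ) ≤ i := Nat.cast_nonneg i
  have h3 : ((i : ℝ) + 1) ≤ ((i : ℝ) + 2) * (i + 1) / 2 := by nlinarith
  calc ((i : ℝ) + 1) * nb k u (i + 2) ≤ (((i : ℝ) + 2) * (i + 1) / 2) * nb k u (i + 2) :=
        mul_le_mul_of_nonneg_right h3 this
    _ = _ := by ring

lemma P2_le_fact {k : ℕ} {u : ℝ} (h0 : 0 ≤ u) (h1 : u < 1) :
    P2 k u ≤ (k + 1) * (k + 2) * (u / (1 - u)) ^ 2 / 2 := by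
  have h := (hasSum_fact22 (k := k) h0 h1).div_const 2
  refine hasSum_le (fun i => ?_) (hasSum_P2 h0 h1) h
  have := nb_nonneg (k := k) h0 h1.le (i + 2)
  have hi : (0 : ℝ) ≤ i := Nat.cast_nonneg i
  have h3 : (1 : ℝ) ≤ ((i : ℝ) + 2) * (i + 1) / 2 := by nlinarith
  calc nb k u (i + 2) = 1 * nb k u (i + 2) := (one_mul _).symm
    _ ≤ (((i : ℝ) + 2) * (i + 1) / 2) * nb k u (i + 2) :=
        mul_le_mul_of_nonneg_right h3 this
    _ = _ := by ring

lemma S1_nonneg {k : ℕ} {u : ℝ} (h0 : 0 ≤ u) (h1 : u < 1) : 0 ≤ S1 k u := by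
  refine tsum_nonneg (fun i => ?_)
  have := nb_nonneg (k := k) h0 h1.le (i + 2); positivity

/-- `E[g(k-1+J); J ≥ 2]`. -/
noncomputable def E2 (k : ℕ) (u : ℝ) (g : ℕ → ℝ) : ℝ := ∑' i : ℕ, nb k u (i + 2) * g (k + 1 + i)

lemma summable_E2 {k : ℕ} {u : ℝ} (h0 : 0 ≤ u) (h1 : u < 1) {g : ℕ → ℝ}
    (hg0 : ∀ n, 0 ≤ g n) (hg1 : ∀ n, g n ≤ 1) :
    Summable (fun i : ℕ => nb k u (i + 2) * g (k + 1 + i)) := by
  refine Summable.of_nonneg_of_le (fun i => ?_) (fun i => ?_) (hasSum_P2 (k := k) h0 h1).summable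
  · exact mul_nonneg (nb_nonneg h0 h1.le _) (hg0 _)
  · have := nb_nonneg (k := k) h0 h1.le (i + 2)
    calc nb k u (i + 2) * g (k + 1 + i) ≤ nb k u (i + 2) * 1 :=
          mul_le_mul_of_nonneg_left (hg1 _) this
      _ = _ := mul_one _

lemma E2_nonneg {k : ℕ} {u : ℝ} (h0 : 0 ≤ u) (h1 : u < 1) {g : ℕ → ℝ}
    (hg0 : ∀ n, 0 ≤ g n) : 0 ≤ E2 k u g :=
  tsum_nonneg (fun _ => mul_nonneg (nb_nonneg h0 h1.le _) (hg0 _))

/-- The drift functional. -/
noncomputable def D (m : ℕ → ℝ) (k : ℕ) (u : ℝ) : ℝ :=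
  k * E2 k u m - (k + 1) * m k * P2 k u

lemma D_nonneg_of_zero {k : ℕ} {u : ℝ} (h0 : 0 ≤ u) (h1 : u < 1) {m : ℕ → ℝ}
    (hm0 : ∀ n, 0 ≤ m n) (hk : m k = 0) : 0 ≤ D m k u := by
  unfold D
  rw [hk]
  have := E2_nonneg (k := k) h0 h1 hm0
  have : 0 ≤ (k : ℝ) * E2 k u m := by positivity
  linarith

lemma D_trivial {k : ℕ} {u : ℝ} (h0 : 0 ≤ u) (h1 : u < 1) {m : ℕ → ℝ}
    (hm0 : ∀ n, 0 ≤ m n) : -((k + 1) * m k * P2 k u) ≤ D m k u := by
  unfold D
  have := E2_nonneg (k := k) h0 h1 hm0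
  have : 0 ≤ (k : ℝ) * E2 k u m := by positivity
  linarith

lemma D_trivial' {k : ℕ} {u : ℝ} (h0 : 0 ≤ u) (h1 : u < 1) {m : ℕ → ℝ}
    (hm0 : ∀ n, 0 ≤ m n) : -((k + 1) * m k) ≤ D m k u := by
  refine le_trans ?_ (D_trivial h0 h1 hm0)
  have h2 := P2_le_one (k := k) h0 h1
  have h3 : 0 ≤ ((k : ℝ) + 1) * m k := mul_nonneg (by positivity) (hm0 k)
  nlinarith

/-- Ramp bound. -/
lemma D_ramp {k : ℕ} (hk : 1 ≤ k) {u : ℝ} (h0 : 0 ≤ u) (h1 : u < 1) {m : ℕ → ℝ}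
    (hm0 : ∀ n, 0 ≤ m n) (hm1 : ∀ n, m n ≤ 1) {ℓ : ℝ} (hℓ : 0 < ℓ)
    (hr : ∀ i : ℕ, m k - ((i : ℝ) + 1) / (k * ℓ) ≤ m (k + 1 + i)) :
    -(P2 k u) - S1 k u / ℓ ≤ D m k u := by
  have hk' : (0 : ℝ) < k := by exact_mod_cast hk
  have hs : HasSum (fun i : ℕ => nb k u (i + 2) * (m k - ((i : ℝ) + 1) / (k * ℓ)))
      (P2 k u * m k - S1 k u / (k * ℓ)) := by
    have a := (hasSum_P2 (k := k) h0 h1).mul_right (m k)
    have b := (summable_S1 (k := k) h0 h1).hasSum.div_const (k * ℓ)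
    refine (a.sub b).congr_fun ?_ |> fun h => h
    intro i; ring
  have hle : P2 k u * m k - S1 k u / (k * ℓ) ≤ E2 k u m := by
    refine hasSum_le (fun i => ?_) hs (summable_E2 h0 h1 hm0 hm1).hasSum
    exact mul_le_mul_of_nonneg_left (hr i) (nb_nonneg h0 h1.le _)
  have h3 : (k : ℝ) * (P2 k u * m k - S1 k u / (k * ℓ)) ≤ k * E2 k u m :=
    mul_le_mul_of_nonneg_left hle hk'.le
  have h4 : (k : ℝ) * (S1 k u / (k * ℓ)) = S1 k u / ℓ := by field_simp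
  unfold D
  have h5 : m k * P2 k u ≤ 1 * P2 k u :=
    mul_le_mul_of_nonneg_right (hm1 k) (P2_nonneg h0 h1)
  nlinarith

/-- Gain bound. -/
lemma D_gain {k : ℕ} (hk : 1 ≤ k) {ε : ℝ} (h0 : 0 < ε) (h1 : ε ≤ 1) {m : ℕ → ℝ}
    (hm0 : ∀ n, 0 ≤ m n) (hm1 : ∀ n, m n ≤ 1) {c b : ℝ} (hc : c ≤ 1) (hb : 0 ≤ b)
    {a : ℕ} (ha : 2 ≤ a)
    (hr : ∀ n : ℕ, a ≤ n → c - b * n ≤ m n) :
    k * (c - b * (2 * k / ε) - a * ε) - (k + 1) * m k ≤ D m k (1 - ε) := by
  have hk' : (1 : ℝ) ≤ k := by exact_mod_cast hk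
  set u : ℝ := 1 - ε with hu
  have hu0 : 0 ≤ u := by linarith
  have hu1 : u < 1 := by linarith
  have hε : 1 - u = ε := by rw [hu]; ring
  -- the indicator sum
  have hind : HasSum (fun i : ℕ => nb k u (i + 2) * (if i + 2 < a then (1 : ℝ) else 0))
      (∑ i ∈ Finset.range (a - 2), nb k u (i + 2)) := by
    have : ∑ i ∈ Finset.range (a - 2), nb k u (i + 2)
        = ∑ i ∈ Finset.range (a - 2), nb k u (i + 2) * (if i + 2 < a then (1 : ℝ) else 0) := by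
      refine Finset.sum_congr rfl (fun i hi => ?_)
      rw [Finset.mem_range] at hi
      rw [if_pos (by omega), mul_one]
    rw [this]
    refine hasSum_sum_of_ne_finset_zero (fun i hi => ?_)
    rw [Finset.mem_range] at hi
    rw [if_neg (by omega), mul_zero]
  have hindle : nb k u 0 + nb k u 1 + ∑ i ∈ Finset.range (a - 2), nb k u (i + 2) ≤ a * ε := by
    have e : nb k u 0 + nb k u 1 + ∑ i ∈ Finset.range (a - 2), nb k u (i + 2)
        = ∑ i ∈ Finset.range a, nb k u i := by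
      obtain ⟨a', rfl⟩ : ∃ a', a = a' + 2 := ⟨a - 2, by omega⟩
      rw [Finset.sum_range_succ', Finset.sum_range_succ']
      simp only [Nat.add_sub_cancel]
      ring
    rw [e]
    calc ∑ i ∈ Finset.range a, nb k u i ≤ ∑ _i ∈ Finset.range a, (1 - u) :=
          Finset.sum_le_sum (fun i _ => nb_le hu0 hu1.le i)
      _ = a * ε := by rw [Finset.sum_const, Finset.card_range, nsmul_eq_mul, hε]
  -- the affine part
  have haff : HasSum (fun i : ℕ => nb k u (i + 2) * ((k : ℝ) + 1 + i))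
      (((k : ℝ) - 1) * P2 k u + ((k + 1) * (u / (1 - u)) - nb k u 1)) := by
    have a1 := (hasSum_P2 (k := k) hu0 hu1).mul_left ((k : ℝ) - 1)
    have b1 := hasSum_mean2 (k := k) hu0 hu1
    refine (a1.add b1).congr_fun ?_ |> fun h => h
    intro i; ring
  have hP : P2 k u ≤ 1 := P2_le_one hu0 hu1
  have haffle : ((k : ℝ) - 1) * P2 k u + ((k + 1) * (u / (1 - u)) - nb k u 1) ≤ 2 * k / ε := by
    have hn1 := nb_nonneg (k := k) hu0 hu1.le 1
    have e1 : ((k : ℝ) - 1) * P2 k u ≤ (k - 1) * 1 :=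
      mul_le_mul_of_nonneg_left hP (by linarith)
    have e2 : ((k : ℝ) - 1) * 1 + (k + 1) * (u / (1 - u)) ≤ 2 * k / ε := by
      rw [hε, hu]
      rw [← sub_nonneg]
      have : 2 * (k : ℝ) / ε - ((k - 1) * 1 + (k + 1) * ((1 - ε) / ε)) = (k - 1 + 2 * ε) / ε := by
        field_simp; ring
      rw [this]
      apply div_nonneg _ h0.le
      linarith
    linarith
  have hs : HasSum (fun i : ℕ => nb k u (i + 2) * (c - b * ((k : ℝ) + 1 + i)
        - (if i + 2 < a then (1 : ℝ) else 0)))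
      (P2 k u * c - b * (((k : ℝ) - 1) * P2 k u + ((k + 1) * (u / (1 - u)) - nb k u 1))
        - ∑ i ∈ Finset.range (a - 2), nb k u (i + 2)) := by
    have a1 := (hasSum_P2 (k := k) hu0 hu1).mul_right c
    have b1 := haff.mul_left b
    refine ((a1.sub b1).sub hind).congr_fun ?_ |> fun h => h
    intro i; ring
  have hle : P2 k u * c - b * (((k : ℝ) - 1) * P2 k u + ((k + 1) * (u / (1 - u)) - nb k u 1))
        - ∑ i ∈ Finset.range (a - 2), nb k u (i + 2) ≤ E2 k u m := by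
    refine hasSum_le (fun i => ?_) hs (summable_E2 hu0 hu1 hm0 hm1).hasSum
    refine mul_le_mul_of_nonneg_left ?_ (nb_nonneg hu0 hu1.le _)
    split_ifs with hlt
    · have h5 := hm0 (k + 1 + i)
      have h6 : 0 ≤ b * ((k : ℝ) + 1 + i) := by positivity
      linarith
    · have h5 := hr (k + 1 + i) (by omega)
      push_cast at h5
      linarith
  have hcP : c - (1 - P2 k u) ≤ P2 k u * c := by nlinarith
  have hP' : 1 - P2 k u = nb k u 0 + nb k u 1 := by rw [P2_eq]; ring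
  have hfin : c - b * (2 * k / ε) - a * ε ≤ E2 k u m := by
    have := mul_le_mul_of_nonneg_left haffle hb
    linarith
  unfold D
  have h7 : (k : ℝ) * (c - b * (2 * k / ε) - a * ε) ≤ k * E2 k u m :=
    mul_le_mul_of_nonneg_left hfin (by linarith)
  have h8 : ((k : ℝ) + 1) * m k * P2 k u ≤ (k + 1) * m k := by
    have h9 : 0 ≤ ((k : ℝ) + 1) * m k := mul_nonneg (by linarith) (hm0 k)
    nlinarith
  linarith

end Pool.Agent.H971.FV
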