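import Pool.Agent.H971.FV.Lam
import Pool.Agent.H971.FV.Forward

/-! Evaluation of the generator on three-set monomials (helper file). -/

open MeasureTheory ProbabilityTheory Filter Topology Set
open scoped ENNReal NNReal unitInterval

namespace Pool.Agent.H971.FV

/-- three-set indicator partition -/
structure Part (α β γ : I → ℝ) : Prop where
  ha : BLim α
  hb : BLim β
  hc : BLim γ
  h : ∀ x, (α x = 1 ∧ β x = 0 ∧ γ x = 0) ∨ (α x = 0 ∧ β x = 1 ∧ γ x = 0) ∨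
    (α x = 0 ∧ β x = 0 ∧ γ x = 1)

/-- the jump polynomial. -/
noncomputable def Δf (n : ℕ) (u x y w : ℝ) : ℝ :=
  x * (((1 - u) * y) * (((1 - u) * w) * ((1 - u) * x + u) ^ n))
  + y * (((1 - u) * y + u) * (((1 - u) * w) * ((1 - u) * x) ^ n))
  + w * (((1 - u) * y) * (((1 - u) * w + u) * ((1 - u) * x) ^ n)) - y * (w * x ^ n)

lemma Δf_eq (n : ℕ) (hn : 1 ≤ n) (u x y w : ℝ) (h : x + y + w = 1) :
    Δf n u x y w = y * w * ((∑ k ∈ Finset.Ico 1 n,
      (n.choose (k - 1) : ℝ) * u ^ (n + 1 - k) * (1 - u) ^ (k + 1) * x ^ k) - P2 n u * x ^ n) := by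
  obtain ⟨p, rfl⟩ : ∃ p, n = p + 1 := ⟨n - 1, by omega⟩
  have hw : w = 1 - x - y := by linarith
  have h1 : ((1 - u) * x + u) ^ (p + 1) = (∑ j ∈ Finset.range p,
      ((1 - u) * x) ^ j * u ^ (p + 1 - j) * ((p + 1).choose j : ℝ))
      + ((1 - u) * x) ^ p * u * (p + 1) + ((1 - u) * x) ^ (p + 1) := by
    rw [add_pow, Finset.sum_range_succ, Finset.sum_range_succ]
    have e1 : p + 1 - p = 1 := by omega
    have e2 : p + 1 - (p + 1) = 0 := by omega
    have e3 : (p + 1).choose p = p + 1 := Nat.choose_succ_self_right p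
    rw [e1, e2, e3, Nat.choose_self]
    push_cast
    ring
  have h2 : ∑ k ∈ Finset.Ico 1 (p + 1),
      ((p + 1).choose (k - 1) : ℝ) * u ^ (p + 1 + 1 - k) * (1 - u) ^ (k + 1) * x ^ k
      = (1 - u) ^ 2 * x * ∑ j ∈ Finset.range p,
      ((1 - u) * x) ^ j * u ^ (p + 1 - j) * ((p + 1).choose j : ℝ) := by
    rw [Finset.sum_Ico_eq_sum_range, Finset.mul_sum]
    have : p + 1 - 1 = p := by omega
    rw [this]
    refine Finset.sum_congr rfl (fun j _ => ?_)
    have e1 : 1 + j - 1 = j := by omega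
    have e2 : p + 1 + 1 - (1 + j) = p + 1 - j := by omega
    rw [e1, e2, mul_pow]
    ring
  rw [h2]
  unfold Δf P2
  rw [h1, hw]
  push_cast
  set Sg := ∑ j ∈ Finset.range p,
      ((1 - u) * x) ^ j * u ^ (p + 1 - j) * ((p + 1).choose j : ℝ) with hSg
  rw [mul_pow, mul_pow]
  ring

lemma E2_eq {N : ℕ} {m : ℕ → ℝ} (hm : ∀ n, N ≤ n → m n = 0) (k : ℕ) (u : ℝ) :
    E2 k u m = ∑ n ∈ Finset.Ico (k + 1) N, nb k u (n + 1 - k) * m n := by
  unfold E2
  rw [Finset.sum_Ico_eq_sum_range]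
  rw [tsum_eq_sum (s := Finset.range (N - (k + 1)))]
  · refine Finset.sum_congr rfl (fun i _ => ?_)
    have : k + 1 + i + 1 - k = i + 2 := by omega
    rw [this]
  · intro i hi
    rw [Finset.mem_range] at hi
    rw [hm _ (by omega), mul_zero]

/-- combination identity -/
lemma comb {N : ℕ} {m : ℕ → ℝ} (hm : ∀ n, N ≤ n → m n = 0) (u x y w : ℝ) (h : x + y + w = 1) :
    ∑ n ∈ Finset.Ico 1 N, ((n : ℝ) + 1) * m n * Δf n u x y w
      = y * w * ∑ k ∈ Finset.Ico 1 N, D m k u * x ^ k := by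
  have h1 : ∑ n ∈ Finset.Ico 1 N, ((n : ℝ) + 1) * m n * Δf n u x y w
      = y * w * ((∑ n ∈ Finset.Ico 1 N, ∑ k ∈ Finset.Ico 1 n, ((n : ℝ) + 1) * m n *
        ((n.choose (k - 1) : ℝ) * u ^ (n + 1 - k) * (1 - u) ^ (k + 1) * x ^ k))
        - ∑ n ∈ Finset.Ico 1 N, ((n : ℝ) + 1) * m n * P2 n u * x ^ n) := by
    rw [← Finset.sum_sub_distrib, Finset.mul_sum]
    refine Finset.sum_congr rfl (fun n hn => ?_)
    rw [Δf_eq n (Finset.mem_Ico.1 hn).1 u x y w h, ← Finset.mul_sum]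
    ring
  rw [h1, ← Finset.sum_Ico_Ico_comm', ← Finset.sum_sub_distrib]
  congr 1
  refine Finset.sum_congr rfl (fun k hk => ?_)
  have hk1 := (Finset.mem_Ico.1 hk).1
  unfold D
  rw [E2_eq hm, Finset.mul_sum, sub_mul, Finset.sum_mul]
  congr 1
  refine Finset.sum_congr rfl (fun n hn => ?_)
  have hn1 := (Finset.mem_Ico.1 hn).1
  unfold nb
  have e1 : k + (n + 1 - k) = n + 1 := by omega
  rw [e1]
  have e2 : ((n : ℝ) + 1) * (n.choose (k - 1) : ℝ) = k * ((n + 1).choose k : ℝ) := by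
    obtain ⟨k', rfl⟩ : ∃ k', k = k' + 1 := ⟨k - 1, by omega⟩
    have h3 := Nat.add_one_mul_choose_eq n k'
    have h4 : ((n + 1 : ℕ) : ℝ) * (n.choose k' : ℝ) = ((n + 1).choose (k' + 1) : ℝ) * ((k' + 1 : ℕ) : ℝ) := by
      exact_mod_cast h3
    simp only [Nat.add_sub_cancel]
    push_cast at h4 ⊢
    linarith
  calc ((n : ℝ) + 1) * m n * ((n.choose (k - 1) : ℝ) * u ^ (n + 1 - k) * (1 - u) ^ (k + 1) * x ^ k)
      = (((n : ℝ) + 1) * (n.choose (k - 1) : ℝ)) * m n * (u ^ (n + 1 - k) * (1 - u) ^ (k + 1) * x ^ k) := by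
        ring
    _ = _ := by rw [e2]; ring

lemma integrable_P2 (k : ℕ) : Integrable (P2 k) (nu Lam) := by
  refine integrable_nu (by unfold P2; fun_prop) (C := 2 * (k + 1) * (k + 2) + 4) (fun u hu => ?_)
  have hu0 := hu.1
  have hu2 : 0 ≤ u ^ 2 := sq_nonneg u
  have hk : (0 : ℝ) ≤ 2 * (k + 1) * (k + 2) := by positivity
  rcases lt_or_ge u 1 with h1 | h1
  · rw [abs_of_nonneg (P2_nonneg hu0.le h1)]
    rcases le_total u (1 / 2) with h2 | h2
    · have h3 := P2_le_fact (k := k) hu0.le h1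
      have h4 : u / (1 - u) ≤ 2 * u := by
        rw [div_le_iff₀ (by linarith)]
        nlinarith
      have h5 : (u / (1 - u)) ^ 2 ≤ (2 * u) ^ 2 :=
        pow_le_pow_left₀ (div_nonneg hu0.le (by linarith)) h4 2
      have h6 : ((k : ℝ) + 1) * (k + 2) * (u / (1 - u)) ^ 2 ≤ (k + 1) * (k + 2) * (2 * u) ^ 2 :=
        mul_le_mul_of_nonneg_left h5 (by positivity)
      nlinarith
    · have h3 := P2_le_one (k := k) hu0.le h1
      have h4 : 1 ≤ 4 * u ^ 2 := by nlinarith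
      nlinarith
  · have h2 : u = 1 := le_antisymm hu.2 h1
    subst h2
    unfold P2
    simp
    nlinarith

lemma integrable_D {N : ℕ} {m : ℕ → ℝ} (hm : ∀ n, N ≤ n → m n = 0) (k : ℕ) :
    Integrable (D m k) (nu Lam) := by
  have : D m k = fun u => k * (∑ n ∈ Finset.Ico (k + 1) N, (((k + (n + 1 - k)).choose k : ℝ) * m n)
      * (u ^ (n + 1 - k) * (1 - u) ^ (k + 1))) - (k + 1) * m k * P2 k u := by
    funext u
    unfold D
    rw [E2_eq hm]
    congr 2
    refine Finset.sum_congr rfl (fun n _ => ?_)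
    unfold nb
    ring
  rw [this]
  refine Integrable.sub (Integrable.const_mul (integrable_finsetSum _ (fun n hn => ?_)) _)
    ((integrable_P2 k).const_mul _)
  refine (integrable_mono_nu ?_).const_mul _
  have := (Finset.mem_Ico.1 hn).1
  omega

lemma drift_D {M k : ℕ} (hM : 1 ≤ M) (hk : 1 ≤ k) :
    -((k : ℝ) + 1) * (2 * (1 / 2) ^ M) ≤ ∫ u, D (mM M) k u ∂(nu Lam) := by
  have hD := integrable_D (N := Dn M + 2) (m := mM M)
    (fun n hn => mM_eq_zero_of_ge (by omega) (by omega)) k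
  exact drift hM hk (hasSum_nu hD)

/-- `(1-x)^2 ∑ (n+1) x^n ≤ 1`. -/
lemma geom_le (x : ℝ) (hx0 : 0 ≤ x) (hx1 : x ≤ 1) (N : ℕ) :
    (1 - x) ^ 2 * ∑ n ∈ Finset.range N, ((n : ℝ) + 1) * x ^ n ≤ 1 := by
  have h : ∀ N : ℕ, (1 - x) ^ 2 * ∑ n ∈ Finset.range N, ((n : ℝ) + 1) * x ^ n
      = 1 - x ^ N * (1 + N * (1 - x)) := by
    intro N
    induction N with
    | zero => simp
    | succ N ih =>
      rw [Finset.sum_range_succ, mul_add, ih]
      push_cast
      ring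
  rw [h]
  have : 0 ≤ x ^ N * (1 + N * (1 - x)) := by
    have : 0 ≤ 1 - x := by linarith
    positivity
  linarith

lemma geom_le' (x : ℝ) (hx0 : 0 ≤ x) (hx1 : x ≤ 1) (N : ℕ) {c : ℕ → ℝ} (hc0 : ∀ n, 0 ≤ c n)
    (hc1 : ∀ n, c n ≤ 1) :
    (1 - x) ^ 2 * ∑ n ∈ Finset.Ico 1 N, ((n : ℝ) + 1) * c n * x ^ n ≤ 1 := by
  refine le_trans ?_ (geom_le x hx0 hx1 N)
  refine mul_le_mul_of_nonneg_left ?_ (sq_nonneg _)
  calc ∑ n ∈ Finset.Ico 1 N, ((n : ℝ) + 1) * c n * x ^ n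
      ≤ ∑ n ∈ Finset.Ico 1 N, ((n : ℝ) + 1) * x ^ n := by
        refine Finset.sum_le_sum (fun n _ => ?_)
        have h1 := hc1 n
        have h2 := hc0 n
        have h3 : 0 ≤ x ^ n := by positivity
        have h4 : ((n : ℝ) + 1) * c n ≤ (n + 1) * 1 :=
          mul_le_mul_of_nonneg_left h1 (by positivity)
        calc ((n : ℝ) + 1) * c n * x ^ n ≤ ((n + 1) * 1) * x ^ n :=
              mul_le_mul_of_nonneg_right h4 h3
          _ = _ := by ring
    _ ≤ _ := by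
      refine Finset.sum_le_sum_of_subset_of_nonneg (fun i hi => ?_) (fun i _ _ => by positivity)
      rw [Finset.mem_Ico] at hi
      exact Finset.mem_range.2 hi.2

section evaluation

variable {α β γ : I → ℝ}

/-- test functions for the monomial `β γ α^n`. -/
def tf (α β γ : I → ℝ) (n : ℕ) : Fin (n + 2) → I → ℝ := Fin.cons β (Fin.cons γ (fun _ => α))

lemma tf_blim (h : Part α β γ) (n : ℕ) (i : Fin (n + 2)) : BLim (tf α β γ n i) := by
  unfold tf
  refine Fin.cases ?_ (fun j => ?_) i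
  · simpa using h.hb
  · refine Fin.cases ?_ (fun k => ?_) j
    · simpa using h.hc
    · simpa using h.ha

lemma mom_tf (n : ℕ) (μ : Measure I) :
    mom (tf α β γ n) μ = (∫ t, β t ∂μ) * ((∫ t, γ t ∂μ) * (∫ t, α t ∂μ) ^ n) := by
  unfold mom tf
  rw [Fin.prod_univ_succ, Fin.prod_univ_succ]
  simp

lemma lin3 (h : Part α β γ) (μ : Measure I) [IsProbabilityMeasure μ] (a b c d : ℝ) :
    ∫ t, (a * α t + b * β t + c * γ t - d) ∂μ
      = a * (∫ t, α t ∂μ) + b * (∫ t, β t ∂μ) + c * (∫ t, γ t ∂μ) - d := by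
  have i1 : Integrable (fun t => a * α t) μ :=
    (integrable_of_bdd h.ha.measurable h.ha.abs_le).const_mul a
  have i2 : Integrable (fun t => b * β t) μ :=
    (integrable_of_bdd h.hb.measurable h.hb.abs_le).const_mul b
  have i3 : Integrable (fun t => c * γ t) μ :=
    (integrable_of_bdd h.hc.measurable h.hc.abs_le).const_mul c
  have i12 : Integrable (fun t => a * α t + b * β t) μ := i1.add i2
  have i123 : Integrable (fun t => a * α t + b * β t + c * γ t) μ := i12.add i3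
  rw [integral_sub i123 (integrable_const _), integral_add i12 i3, integral_add i1 i2,
    integral_const_mul, integral_const_mul, integral_const_mul, integral_const, probReal_univ,
    one_smul]

lemma jump_tf (h : Part α β γ) (n : ℕ) (μ : Measure I) [IsProbabilityMeasure μ] (u : ℝ) :
    jump (tf α β γ n) μ u = Δf n u (∫ t, α t ∂μ) (∫ t, β t ∂μ) (∫ t, γ t ∂μ) := by
  unfold jump
  rw [mom_tf]
  set x := ∫ t, α t ∂μ
  set y := ∫ t, β t ∂μ
  set w := ∫ t, γ t ∂μ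
  have hp : ∀ t, (∏ i, ((1 - u) * (∫ y, tf α β γ n i y ∂μ) + u * tf α β γ n i t))
      - y * (w * x ^ n)
      = (((1 - u) * y) * (((1 - u) * w) * ((1 - u) * x + u) ^ n)) * α t
      + (((1 - u) * y + u) * (((1 - u) * w) * ((1 - u) * x) ^ n)) * β t
      + (((1 - u) * y) * (((1 - u) * w + u) * ((1 - u) * x) ^ n)) * γ t - y * (w * x ^ n) := by
    intro t
    have e : ∏ i, ((1 - u) * (∫ y, tf α β γ n i y ∂μ) + u * tf α β γ n i t)
        = ((1 - u) * y + u * β t) * (((1 - u) * w + u * γ t) * ((1 - u) * x + u * α t) ^ n) := by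
      unfold tf
      rw [Fin.prod_univ_succ, Fin.prod_univ_succ]
      simp [x, y, w]
    rw [e]
    rcases h.h t with ⟨h1, h2, h3⟩ | ⟨h1, h2, h3⟩ | ⟨h1, h2, h3⟩ <;> rw [h1, h2, h3] <;> ring
  simp_rw [hp]
  rw [lin3 h μ]
  unfold Δf
  ring

lemma sum_one (h : Part α β γ) (μ : Measure I) [IsProbabilityMeasure μ] :
    (∫ t, α t ∂μ) + (∫ t, β t ∂μ) + (∫ t, γ t ∂μ) = 1 := by
  have h1 := lin3 h μ 1 1 1 0
  have : ∀ t, 1 * α t + 1 * β t + 1 * γ t - 0 = 1 := by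
    intro t
    rcases h.h t with ⟨h1, h2, h3⟩ | ⟨h1, h2, h3⟩ | ⟨h1, h2, h3⟩ <;> rw [h1, h2, h3] <;> ring
  simp only [this, integral_const, probReal_univ, one_smul] at h1
  linarith

/-- the potential function of the masses -/
noncomputable def Phi (α β γ : I → ℝ) (M : ℕ) (μ : Measure I) : ℝ :=
  ∑ n ∈ Finset.Ico 1 (Dn M + 2), ((n : ℝ) + 1) * mM M n * mom (tf α β γ n) μ

/-- generator applied to the potential -/
noncomputable def LPhi (α β γ : I → ℝ) (M : ℕ) (μ : Measure I) : ℝ :=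
  ∑ n ∈ Finset.Ico 1 (Dn M + 2), ((n : ℝ) + 1) * mM M n * gen' Lam (tf α β γ n) μ

lemma integrable_jump (h : Part α β γ) (n : ℕ) (μ : Measure I) [IsProbabilityMeasure μ] :
    Integrable (jump (tf α β γ n) μ) (nu Lam) := by
  have : jump (tf α β γ n) μ = fun u => ∑ S ∈ (Finset.univ : Finset (Fin (n + 2))).powerset with
      2 ≤ S.card, u ^ S.card * (1 - u) ^ (n + 2 - S.card) * KS (tf α β γ n) μ S := by
    funext u
    exact jump_eq _ (fun i => (tf_blim h n i).measurable) (fun i x => (tf_blim h n i).abs_le x) μ u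
  rw [this]
  refine integrable_finsetSum _ (fun S hS => ?_)
  rw [Finset.mem_filter] at hS
  exact (integrable_mono_nu hS.2).mul_const _

lemma LPhi_eq (h : Part α β γ) (M : ℕ) (μ : Measure I) [IsProbabilityMeasure μ] :
    LPhi α β γ M μ = (∫ t, β t ∂μ) * (∫ t, γ t ∂μ) *
      ∑ k ∈ Finset.Ico 1 (Dn M + 2), (∫ u, D (mM M) k u ∂(nu Lam)) * (∫ t, α t ∂μ) ^ k := by
  have hm : ∀ n, Dn M + 2 ≤ n → mM M n = 0 :=
    fun n hn => mM_eq_zero_of_ge (by omega) (by omega)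
  have e1 : LPhi α β γ M μ = ∫ u, ∑ n ∈ Finset.Ico 1 (Dn M + 2),
      ((n : ℝ) + 1) * mM M n * jump (tf α β γ n) μ u ∂(nu Lam) := by
    unfold LPhi gen'
    rw [integral_finsetSum _ (fun n _ => (integrable_jump h n μ).const_mul _)]
    exact Finset.sum_congr rfl (fun n _ => (integral_const_mul _ _).symm)
  rw [e1]
  simp_rw [jump_tf h, comb hm _ _ _ _ (sum_one h μ)]
  rw [integral_const_mul, integral_finsetSum _ (fun k _ => (integrable_D hm k).mul_const _)]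
  congr 1
  exact Finset.sum_congr rfl (fun k _ => integral_mul_const _ _)

lemma LPhi_ge (h : Part α β γ) {M : ℕ} (hM : 1 ≤ M) (μ : Measure I) [IsProbabilityMeasure μ] :
    -(2 * (1 / 2) ^ M) ≤ LPhi α β γ M μ := by
  rw [LPhi_eq h]
  have hx := integral_mem h.ha μ
  have hy := integral_mem h.hb μ
  have hw := integral_mem h.hc μ
  have hs := sum_one h μ
  set x := ∫ t, α t ∂μ
  set y := ∫ t, β t ∂μ
  set w := ∫ t, γ t ∂μ
  have hyw : 0 ≤ y * w := mul_nonneg hy.1 hw.1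
  have h1 : ∑ k ∈ Finset.Ico 1 (Dn M + 2), (-((k : ℝ) + 1) * (2 * (1 / 2) ^ M)) * x ^ k
      ≤ ∑ k ∈ Finset.Ico 1 (Dn M + 2), (∫ u, D (mM M) k u ∂(nu Lam)) * x ^ k := by
    refine Finset.sum_le_sum (fun k hk => ?_)
    exact mul_le_mul_of_nonneg_right (drift_D hM (Finset.mem_Ico.1 hk).1) (pow_nonneg hx.1 _)
  refine le_trans ?_ (mul_le_mul_of_nonneg_left h1 hyw)
  have h2 : ∑ k ∈ Finset.Ico 1 (Dn M + 2), (-((k : ℝ) + 1) * (2 * (1 / 2) ^ M)) * x ^ k
      = -(2 * (1 / 2) ^ M) * ∑ k ∈ Finset.Ico 1 (Dn M + 2), ((k : ℝ) + 1) * 1 * x ^ k := by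
    rw [Finset.mul_sum]
    refine Finset.sum_congr rfl (fun k _ => ?_)
    ring
  rw [h2]
  have h3 := geom_le' x hx.1 hx.2 (Dn M + 2) (c := fun _ => 1) (fun _ => zero_le_one)
    (fun _ => le_rfl)
  have h4 : y * w ≤ (1 - x) ^ 2 := by
    have : 1 - x = y + w := by linarith
    rw [this]; nlinarith
  set G := ∑ k ∈ Finset.Ico 1 (Dn M + 2), ((k : ℝ) + 1) * 1 * x ^ k
  have hG : 0 ≤ G := Finset.sum_nonneg (fun k _ => by have := hx.1; positivity)
  have h5 : y * w * G ≤ 1 := (mul_le_mul_of_nonneg_right h4 hG).trans h3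
  have hp : (0 : ℝ) < 2 * (1 / 2) ^ M := by positivity
  calc -(2 * (1 / 2) ^ M : ℝ) = -(2 * (1 / 2) ^ M) * 1 := by ring
    _ ≤ -(2 * (1 / 2) ^ M) * (y * w * G) := by nlinarith
    _ = _ := by ring

/-- The relative diversity of the complement. -/
noncomputable def Q (β γ : I → ℝ) (μ : Measure I) : ℝ :=
  (∫ t, β t ∂μ) * (∫ t, γ t ∂μ) / ((∫ t, β t ∂μ) + (∫ t, γ t ∂μ)) ^ 2

lemma Phi_le_Q (h : Part α β γ) (M : ℕ) (μ : Measure I) [IsProbabilityMeasure μ] :
    Phi α β γ M μ ≤ Q β γ μ := by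
  unfold Phi Q
  simp_rw [mom_tf]
  have hx := integral_mem h.ha μ
  have hy := integral_mem h.hb μ
  have hw := integral_mem h.hc μ
  have hs := sum_one h μ
  set x := ∫ t, α t ∂μ
  set y := ∫ t, β t ∂μ
  set w := ∫ t, γ t ∂μ
  have e : ∑ n ∈ Finset.Ico 1 (Dn M + 2), ((n : ℝ) + 1) * mM M n * (y * (w * x ^ n))
      = y * w * ∑ n ∈ Finset.Ico 1 (Dn M + 2), ((n : ℝ) + 1) * mM M n * x ^ n := by
    rw [Finset.mul_sum]
    exact Finset.sum_congr rfl (fun n _ => by ring)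
  rw [e]
  have h3 := geom_le' x hx.1 hx.2 (Dn M + 2) (c := mM M) (mM_nonneg M) (mM_le_one M)
  have h1x : 1 - x = y + w := by linarith
  rw [h1x] at h3
  set G := ∑ n ∈ Finset.Ico 1 (Dn M + 2), ((n : ℝ) + 1) * mM M n * x ^ n
  rcases eq_or_lt_of_le (show 0 ≤ y + w by linarith [hy.1, hw.1]) with h0 | h0
  · have hy0 : y = 0 := by linarith [hy.1, hw.1]
    rw [hy0]; simp
  · rw [le_div_iff₀ (by positivity)]
    have : 0 ≤ y * w := mul_nonneg hy.1 hw.1
    calc y * w * G * (y + w) ^ 2 = y * w * ((y + w) ^ 2 * G) := by ring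
      _ ≤ y * w * 1 := mul_le_mul_of_nonneg_left h3 this
      _ = _ := mul_one _

lemma Phi_ge (h : Part α β γ) (M : ℕ) (μ : Measure I) [IsProbabilityMeasure μ] :
    (1 / 2) * ((∫ t, α t ∂μ) * (∫ t, β t ∂μ) * (∫ t, γ t ∂μ)) ≤ Phi α β γ M μ := by
  unfold Phi
  simp_rw [mom_tf]
  have hx := integral_mem h.ha μ
  have hy := integral_mem h.hb μ
  have hw := integral_mem h.hc μ
  set x := ∫ t, α t ∂μ
  set y := ∫ t, β t ∂μ
  set w := ∫ t, γ t ∂μ
  have hmem : 1 ∈ Finset.Ico 1 (Dn M + 2) := by rw [Finset.mem_Ico]; omega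
  have := Finset.single_le_sum
    (f := fun n : ℕ => ((n : ℝ) + 1) * mM M n * (y * (w * x ^ n))) (fun n _ => by
      have := mM_nonneg M n
      have := hx.1
      have := hy.1
      have := hw.1
      positivity) hmem
  refine le_trans (le_of_eq ?_) this
  simp only [Nat.cast_one, pow_one]
  rw [mM_one]
  ring

end evaluation

end Pool.Agent.H971.FV
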