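import Pool.Agent.H971.FV.NB

/-! The fast growing sequences, the potential, and the drift inequality (helper file). -/

open Filter Topology

namespace Pool.Agent.H971.FV

/-- small atoms are at `1 / s i`. -/
def sN (i d : ℕ) : ℕ := 4608 * 8 ^ i * d
/-- left end points of zones -/
def aN (i d : ℕ) : ℕ := 384 * 8 ^ i * sN i d
/-- ramp lengths -/
def lN (i d : ℕ) : ℕ := 384 * 8 ^ i * (2 ^ (i + 5) * aN i d + 4) + 2 * 4 ^ (i + 4) * d

/-- right end points of zones (shifted by one). -/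
noncomputable def Dn : ℕ → ℕ
  | 0 => 1
  | (i + 1) => ⌈(aN i (Dn i) : ℝ) * Real.exp (lN i (Dn i))⌉₊

noncomputable def sn (i : ℕ) : ℕ := sN i (Dn i)
noncomputable def an (i : ℕ) : ℕ := aN i (Dn i)
noncomputable def ln (i : ℕ) : ℕ := lN i (Dn i)

lemma sn_eq (i : ℕ) : sn i = 4608 * 8 ^ i * Dn i := rfl
lemma an_eq (i : ℕ) : an i = 384 * 8 ^ i * sn i := rfl
lemma ln_eq (i : ℕ) : ln i = 384 * 8 ^ i * (2 ^ (i + 5) * an i + 4) + 2 * 4 ^ (i + 4) * Dn i := rfl

lemma Dn_succ_ge (i : ℕ) : (an i : ℝ) * Real.exp (ln i) ≤ Dn (i + 1) := by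
  have : Dn (i + 1) = ⌈(aN i (Dn i) : ℝ) * Real.exp (lN i (Dn i))⌉₊ := by
    conv_lhs => rw [Dn]
  rw [this]
  exact Nat.le_ceil _

lemma an_le_Dn_succ (i : ℕ) : an i ≤ Dn (i + 1) := by
  have h := Dn_succ_ge i
  have h1 : (1 : ℝ) ≤ Real.exp (ln i) := Real.one_le_exp (Nat.cast_nonneg _)
  have h2 : (an i : ℝ) ≤ (an i : ℝ) * Real.exp (ln i) := by
    have : (0 : ℝ) ≤ an i := Nat.cast_nonneg _
    nlinarith
  exact_mod_cast h2.trans h

lemma Dn_le_sn (i : ℕ) : Dn i ≤ sn i := by
  rw [sn_eq]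
  have : 1 ≤ 4608 * 8 ^ i := by
    have := Nat.one_le_pow i 8 (by norm_num)
    omega
  nlinarith [Nat.zero_le (Dn i)]

lemma sn_le_an (i : ℕ) : sn i ≤ an i := by
  rw [an_eq]
  have : 1 ≤ 384 * 8 ^ i := by
    have := Nat.one_le_pow i 8 (by norm_num)
    omega
  nlinarith [Nat.zero_le (sn i)]

lemma Dn_pos (i : ℕ) : 1 ≤ Dn i := by
  induction i with
  | zero => simp [Dn]
  | succ i ih =>
    have := an_le_Dn_succ i
    have := sn_le_an i
    have := Dn_le_sn i
    omega

lemma sn_ge (i : ℕ) : 4608 * 8 ^ i ≤ sn i := by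
  rw [sn_eq]
  have := Dn_pos i
  nlinarith [Nat.zero_le (4608 * 8 ^ i)]

lemma sn_ge' (i : ℕ) : 4608 ≤ sn i := by
  have := sn_ge i
  have := Nat.one_le_pow i 8 (by norm_num)
  omega

lemma Dn_mono : Monotone Dn := by
  refine monotone_nat_of_le_succ (fun i => ?_)
  have := an_le_Dn_succ i
  have := sn_le_an i
  have := Dn_le_sn i
  omega

lemma an_mono : Monotone an := by
  refine monotone_nat_of_le_succ (fun i => ?_)
  have := an_le_Dn_succ i
  have := sn_le_an (i + 1)
  have := Dn_le_sn (i + 1)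
  omega

lemma sn_mono : Monotone sn := by
  refine monotone_nat_of_le_succ (fun i => ?_)
  have := sn_le_an i
  have := an_le_Dn_succ i
  have := Dn_le_sn (i + 1)
  omega

lemma sn_double (i : ℕ) : 2 * sn i ≤ sn (i + 1) := by
  have h1 := sn_le_an i
  have h2 := an_le_Dn_succ i
  have h3 : 2 * Dn (i + 1) ≤ sn (i + 1) := by
    rw [sn_eq]
    have : 2 ≤ 4608 * 8 ^ (i + 1) := by
      have := Nat.one_le_pow (i + 1) 8 (by norm_num)
      omega
    exact Nat.mul_le_mul_right _ this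
  omega

lemma an_ge (i : ℕ) : 4608 ≤ an i := (sn_ge' i).trans (sn_le_an i)

lemma ln_ge_one (i : ℕ) : 1 ≤ ln i := by
  rw [ln_eq]
  have := Nat.one_le_pow i 8 (by norm_num)
  have h : 1 ≤ 384 * 8 ^ i * (2 ^ (i + 5) * an i + 4) := by
    have h1 : 1 ≤ 384 * 8 ^ i := by omega
    have h2 : 1 ≤ (2 ^ (i + 5) * an i + 4) := by omega
    exact Nat.one_le_iff_ne_zero.2 (Nat.mul_ne_zero (by omega) (by omega))
  omega

/-- heights -/
noncomputable def An (i : ℕ) : ℝ := (1 / 2) ^ (i + 2)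
/-- heavy weights -/
noncomputable def qn (i : ℕ) : ℝ := (1 / 2) ^ (i + 1)
noncomputable def δn (i : ℕ) : ℝ := (1 / 2) ^ (i + 4)
noncomputable def εn (i : ℕ) : ℝ := δn i / an i

lemma an_pos (i : ℕ) : (0 : ℝ) < an i := by
  have := an_ge i
  exact_mod_cast (show 0 < an i by omega)

lemma ln_pos (i : ℕ) : (0 : ℝ) < ln i := by
  have := ln_ge_one i
  exact_mod_cast (show 0 < ln i by omega)

lemma sn_pos (i : ℕ) : (0 : ℝ) < sn i := by
  have := sn_ge' i
  exact_mod_cast (show 0 < sn i by omega)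

lemma δn_pos (i : ℕ) : 0 < δn i := by unfold δn; positivity
lemma qn_pos (i : ℕ) : 0 < qn i := by unfold qn; positivity
lemma An_pos (i : ℕ) : 0 < An i := by unfold An; positivity
lemma εn_pos (i : ℕ) : 0 < εn i := div_pos (δn_pos i) (an_pos i)

lemma half_pow_le_one (n : ℕ) : ((1 : ℝ) / 2) ^ n ≤ 1 := pow_le_one₀ (by norm_num) (by norm_num)

lemma An_le (i : ℕ) : An i ≤ 1 / 4 := by
  unfold An
  rw [pow_add]
  have := half_pow_le_one i
  norm_num at this ⊢
  linarith

lemma δn_le (i : ℕ) : δn i ≤ 1 / 16 := by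
  unfold δn
  rw [pow_add]
  have := half_pow_le_one i
  norm_num at this ⊢
  linarith

lemma εn_lt_one (i : ℕ) : εn i < 1 := by
  unfold εn
  rw [div_lt_one (an_pos i)]
  have h := δn_le i
  have h2 : (4608 : ℝ) ≤ an i := by exact_mod_cast an_ge i
  linarith

lemma qn_le_one (i : ℕ) : qn i ≤ 1 := half_pow_le_one _

/-- the ramps -/
noncomputable def rn (i n : ℕ) : ℝ :=
  if an i ≤ n then max 0 (1 - An i - Real.log ((n : ℝ) / an i) / ln i) else 0

noncomputable def r0 (n : ℕ) : ℝ := if n = 1 then 1 / 4 else 0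

/-- the potential -/
noncomputable def mM (M n : ℕ) : ℝ := r0 n + ∑ i ∈ Finset.range M, rn i n

lemma r0_nonneg (n : ℕ) : 0 ≤ r0 n := by unfold r0; split_ifs <;> norm_num

lemma rn_nonneg (i n : ℕ) : 0 ≤ rn i n := by
  unfold rn; split_ifs
  · exact le_max_left _ _
  · exact le_rfl

lemma rn_le (i n : ℕ) : rn i n ≤ 1 - An i := by
  have hA := An_le i
  unfold rn; split_ifs with h
  · refine max_le (by linarith) ?_
    have h1 : 0 ≤ Real.log ((n : ℝ) / an i) := by
      refine Real.log_nonneg ?_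
      rw [one_le_div (an_pos i)]
      exact_mod_cast h
    have := div_nonneg h1 (ln_pos i).le
    linarith
  · linarith

lemma rn_pos {i n : ℕ} (h : 0 < rn i n) : an i ≤ n ∧ n < Dn (i + 1) := by
  unfold rn at h
  split_ifs at h with h1
  · refine ⟨h1, ?_⟩
    have h2 : 0 < 1 - An i - Real.log ((n : ℝ) / an i) / ln i := by
      by_contra hc
      push Not at hc
      rw [max_eq_left hc] at h
      exact lt_irrefl _ h
    have hA := An_pos i
    have h3 : Real.log ((n : ℝ) / an i) / ln i < 1 := by linarith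
    rw [div_lt_one (ln_pos i)] at h3
    have hn : (0 : ℝ) < n := by
      have := an_pos i
      have h1' : (an i : ℝ) ≤ n := by exact_mod_cast h1
      linarith
    have h4 : (n : ℝ) / an i < Real.exp (ln i) := by
      rw [← Real.log_lt_iff_lt_exp (div_pos hn (an_pos i))]
      exact h3
    rw [div_lt_iff₀ (an_pos i)] at h4
    have h5 := Dn_succ_ge i
    have : (n : ℝ) < Dn (i + 1) := by
      calc (n : ℝ) < Real.exp (ln i) * an i := h4
        _ = an i * Real.exp (ln i) := mul_comm _ _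
        _ ≤ _ := h5
    exact_mod_cast this
  · exact absurd h (lt_irrefl _)

lemma rn_eq_zero_of_ne {i j n : ℕ} (hij : i ≠ j) (h : 0 < rn j n) : rn i n = 0 := by
  by_contra hc
  have hi : 0 < rn i n := lt_of_le_of_ne (rn_nonneg i n) (Ne.symm hc)
  obtain ⟨h1, h2⟩ := rn_pos h
  obtain ⟨h3, h4⟩ := rn_pos hi
  rcases lt_or_gt_of_ne hij with hlt | hlt
  · have := Dn_mono (show i + 1 ≤ j by omega)
    have := Dn_le_sn j
    have := sn_le_an j
    omega
  · have := Dn_mono (show j + 1 ≤ i by omega)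
    have := Dn_le_sn i
    have := sn_le_an i
    omega

lemma mM_nonneg (M n : ℕ) : 0 ≤ mM M n :=
  add_nonneg (r0_nonneg n) (Finset.sum_nonneg (fun i _ => rn_nonneg i n))

lemma rn_le_mM {M i : ℕ} (hi : i < M) (n : ℕ) : rn i n ≤ mM M n := by
  unfold mM
  have := Finset.single_le_sum (f := fun i => rn i n) (fun i _ => rn_nonneg i n)
    (Finset.mem_range.2 hi)
  have := r0_nonneg n
  linarith

lemma mM_eq_of_pos {M j n : ℕ} (hj : j < M) (h : 0 < rn j n) : mM M n = rn j n := by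
  unfold mM
  have h1 : r0 n = 0 := by
    unfold r0
    rw [if_neg]
    obtain ⟨h1, _⟩ := rn_pos h
    have := an_ge j
    omega
  rw [h1, zero_add, Finset.sum_eq_single j]
  · intro i _ hij; exact rn_eq_zero_of_ne hij h
  · intro hc; exact absurd (Finset.mem_range.2 hj) hc

lemma rn_one (i : ℕ) : rn i 1 = 0 := by
  unfold rn
  rw [if_neg]
  have := an_ge i
  omega

lemma mM_one (M : ℕ) : mM M 1 = 1 / 4 := by
  unfold mM
  rw [Finset.sum_eq_zero (fun i _ => rn_one i)]
  simp [r0]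

/-- case distinction -/
lemma mM_cases (M n : ℕ) : mM M n = 0 ∨ n = 1 ∨ ∃ j, j < M ∧ 0 < rn j n := by
  by_cases h1 : n = 1
  · exact Or.inr (Or.inl h1)
  by_cases h2 : ∃ j, j < M ∧ 0 < rn j n
  · exact Or.inr (Or.inr h2)
  · left
    push Not at h2
    unfold mM
    rw [Finset.sum_eq_zero]
    · simp [r0, h1]
    · intro i hi
      exact le_antisymm (h2 i (Finset.mem_range.1 hi)) (rn_nonneg i n)

lemma mM_le_one (M n : ℕ) : mM M n ≤ 1 := by
  rcases mM_cases M n with h | h | ⟨j, hj, h⟩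
  · rw [h]; norm_num
  · rw [h, mM_one]; norm_num
  · rw [mM_eq_of_pos hj h]
    have := rn_le j n
    have := An_pos j
    linarith

lemma mM_eq_zero_of_ge {M n : ℕ} (hn : Dn M ≤ n) (hn2 : 2 ≤ n) : mM M n = 0 := by
  rcases mM_cases M n with h | h | ⟨j, hj, h⟩
  · exact h
  · omega
  · obtain ⟨_, h2⟩ := rn_pos h
    have := Dn_mono (show j + 1 ≤ M by omega)
    omega

/-- the ramp inequality -/
lemma ramp {M j k : ℕ} (hj : j < M) (h : 0 < rn j k) (i : ℕ) :
    mM M k - ((i : ℝ) + 1) / (k * ln j) ≤ mM M (k + 1 + i) := by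
  rw [mM_eq_of_pos hj h]
  refine le_trans ?_ (rn_le_mM hj _)
  obtain ⟨h1, _⟩ := rn_pos h
  have hk : (0 : ℝ) < k := by
    have := an_pos j
    have h1' : (an j : ℝ) ≤ k := by exact_mod_cast h1
    linarith
  have hval : rn j k = 1 - An j - Real.log ((k : ℝ) / an j) / ln j := by
    unfold rn at h ⊢
    rw [if_pos h1] at h ⊢
    rcases max_cases (0 : ℝ) (1 - An j - Real.log ((k : ℝ) / an j) / ln j) with hm | hm
    · rw [hm.1] at h; exact absurd h (lt_irrefl _)
    · exact hm.1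
  rw [hval]
  unfold rn
  rw [if_pos (by omega)]
  refine le_trans ?_ (le_max_right _ _)
  have hlog : Real.log (((k + 1 + i : ℕ) : ℝ) / an j) ≤ Real.log ((k : ℝ) / an j)
      + ((i : ℝ) + 1) / k := by
    have hn : (0 : ℝ) < ((k + 1 + i : ℕ) : ℝ) := by positivity
    have e : ((k + 1 + i : ℕ) : ℝ) / an j = ((k : ℝ) / an j) * (((k + 1 + i : ℕ) : ℝ) / k) := by
      have := an_pos j
      field_simp
    rw [e, Real.log_mul (by have := an_pos j; positivity) (by positivity)]
    have h5 := Real.log_le_sub_one_of_pos (show 0 < ((k + 1 + i : ℕ) : ℝ) / k by positivity)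
    have h6 : ((k + 1 + i : ℕ) : ℝ) / k - 1 = ((i : ℝ) + 1) / k := by
      push_cast; field_simp; ring
    linarith
  have hl := ln_pos j
  have h7 : Real.log (((k + 1 + i : ℕ) : ℝ) / an j) / ln j
      ≤ (Real.log ((k : ℝ) / an j) + ((i : ℝ) + 1) / k) / ln j :=
    div_le_div_of_nonneg_right hlog hl.le
  have h8 : (Real.log ((k : ℝ) / an j) + ((i : ℝ) + 1) / k) / ln j
      = Real.log ((k : ℝ) / an j) / ln j + ((i : ℝ) + 1) / (k * ln j) := by
    rw [add_div, div_div]
  linarith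

/-- the gain inequality -/
lemma gain {M i n : ℕ} (hi : i < M) (hn : an i ≤ n) :
    (1 - An i) - 1 / (an i * ln i) * n ≤ mM M n := by
  refine le_trans ?_ (rn_le_mM hi n)
  unfold rn
  rw [if_pos hn]
  refine le_trans ?_ (le_max_right _ _)
  have ha := an_pos i
  have hn' : (0 : ℝ) < n := by
    have : (an i : ℝ) ≤ n := by exact_mod_cast hn
    linarith
  have h1 : Real.log ((n : ℝ) / an i) ≤ (n : ℝ) / an i := by
    have := Real.log_le_sub_one_of_pos (div_pos hn' ha)
    linarith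
  have h2 := div_le_div_of_nonneg_right h1 (ln_pos i).le
  have h3 : (n : ℝ) / an i / ln i = 1 / (an i * ln i) * n := by
    have := ln_pos i
    field_simp
  linarith

/-- location of small atoms -/
noncomputable def un (i : ℕ) : ℝ := 1 / sn i

lemma un_pos (i : ℕ) : 0 < un i := by
  have := sn_pos i
  unfold un; positivity

lemma un_lt (i : ℕ) : un i < 1 := by
  unfold un
  rw [div_lt_one (sn_pos i)]
  have : (4608 : ℝ) ≤ sn i := by exact_mod_cast sn_ge' i
  linarith

lemma un_ratio (i : ℕ) : un i / (1 - un i) ≤ 2 / sn i := by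
  have hs : (4608 : ℝ) ≤ sn i := by exact_mod_cast sn_ge' i
  have h1 : un i / (1 - un i) = 1 / (sn i - 1) := by
    unfold un
    have : (sn i : ℝ) ≠ 0 := by linarith
    have : (sn i : ℝ) - 1 ≠ 0 := by linarith
    field_simp
  rw [h1, div_le_div_iff₀ (by linarith) (by linarith)]
  linarith

lemma un_ratio_nonneg (i : ℕ) : 0 ≤ un i / (1 - un i) :=
  div_nonneg (un_pos i).le (by have := un_lt i; linarith)

/-- contribution of the `i`-th pair of atoms. -/
noncomputable def pr (M k i : ℕ) : ℝ :=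
  qn i * D (mM M) k (1 - εn i) + sn i * D (mM M) k (un i)

lemma four_eight (j i : ℕ) (h : i ≤ j) :
    (1 / (8 : ℝ)) ^ j ≤ 2 * (1 / 4) ^ j * qn i := by
  have h1 : (1 / (8 : ℝ)) ^ j = (1 / 4) ^ j * (1 / 2) ^ j := by
    rw [← mul_pow]; norm_num
  have h2 : ((1 : ℝ) / 2) ^ j ≤ (1 / 2) ^ i :=
    pow_le_pow_of_le_one (by norm_num) (by norm_num) h
  have h3 : (1 / 2 : ℝ) ^ i = 2 * qn i := by unfold qn; rw [pow_succ]; ring
  rw [h1]
  have h4 : (0 : ℝ) ≤ (1 / 4) ^ j := by positivity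
  calc (1 / 4 : ℝ) ^ j * (1 / 2) ^ j ≤ (1 / 4) ^ j * (1 / 2) ^ i :=
        mul_le_mul_of_nonneg_left h2 h4
    _ = _ := by rw [h3]; ring

lemma four_eight' (j i : ℕ) (h : j ≤ i) :
    (1 / (8 : ℝ)) ^ i ≤ 2 * (1 / 4) ^ j * qn i := by
  have h1 : (1 / (8 : ℝ)) ^ i = (1 / 4) ^ i * (1 / 2) ^ i := by
    rw [← mul_pow]; norm_num
  have h2 : ((1 : ℝ) / 4) ^ i ≤ (1 / 4) ^ j :=
    pow_le_pow_of_le_one (by norm_num) (by norm_num) h
  have h3 : (1 / 2 : ℝ) ^ i = 2 * qn i := by unfold qn; rw [pow_succ]; ring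
  rw [h1]
  have h4 : (0 : ℝ) ≤ (1 / 2) ^ i := by positivity
  calc (1 / 4 : ℝ) ^ i * (1 / 2) ^ i ≤ (1 / 4) ^ j * (1 / 2) ^ i :=
        mul_le_mul_of_nonneg_right h2 h4
    _ = _ := by rw [h3]; ring

/-- small atoms above the zone -/
lemma small_above {M k i : ℕ} (hk : 1 ≤ k) (hki : k ≤ Dn i)
    (hD : -(P2 k (un i)) - S1 k (un i) ≤ D (mM M) k (un i)) :
    -((k : ℝ) * (1 / 192) * (1 / 8) ^ i) ≤ sn i * D (mM M) k (un i) := by
  have hs : (0 : ℝ) < sn i := sn_pos i
  have hk' : (1 : ℝ) ≤ k := by exact_mod_cast hk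
  have hki' : (k : ℝ) ≤ Dn i := by exact_mod_cast hki
  have h1 := P2_le_fact (k := k) (un_pos i).le (un_lt i)
  have h2 := S1_le_fact (k := k) (un_pos i).le (un_lt i)
  have h3 : (un i / (1 - un i)) ^ 2 ≤ (2 / sn i) ^ 2 :=
    pow_le_pow_left₀ (un_ratio_nonneg i) (un_ratio i) 2
  have h4 : ((k : ℝ) + 1) * (k + 2) ≤ 6 * k ^ 2 := by nlinarith
  have h5 : ((k : ℝ) + 1) * (k + 2) * (un i / (1 - un i)) ^ 2 ≤ 6 * k ^ 2 * (2 / sn i) ^ 2 := by
    apply mul_le_mul h4 h3 (by positivity) (by positivity)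
  have h7 : -(6 * k ^ 2 * (2 / sn i) ^ 2) ≤ D (mM M) k (un i) := by linarith
  have h8 : (sn i : ℝ) * -(6 * k ^ 2 * (2 / sn i) ^ 2) ≤ sn i * D (mM M) k (un i) :=
    mul_le_mul_of_nonneg_left h7 hs.le
  refine le_trans ?_ h8
  have h9 : (sn i : ℝ) * -(6 * (k : ℝ) ^ 2 * (2 / sn i) ^ 2) = -(24 * k ^ 2 / sn i) := by
    field_simp; ring
  rw [h9, neg_le_neg_iff]
  have h10 : (sn i : ℝ) = 4608 * 8 ^ i * Dn i := by
    have := sn_eq i
    rw [this]; push_cast; ring
  have hDi : (0 : ℝ) < Dn i := by linarith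
  rw [h10, div_le_iff₀ (by positivity)]
  have h11 : (k : ℝ) * (1 / 192) * (1 / 8) ^ i * (4608 * 8 ^ i * Dn i) = 24 * k * Dn i := by
    have : (1 / (8 : ℝ)) ^ i * 8 ^ i = 1 := by rw [← mul_pow]; norm_num
    calc (k : ℝ) * (1 / 192) * (1 / 8) ^ i * (4608 * 8 ^ i * Dn i)
        = 24 * k * Dn i * ((1 / 8) ^ i * 8 ^ i) := by ring
      _ = _ := by rw [this, mul_one]
  rw [h11]
  nlinarith

/-- The pair `i ≤ j` (atoms at or below the zone). -/
lemma pr_below {M j k i : ℕ} (hj : j < M) (h : 0 < rn j k) (hij : i ≤ j) :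
    -(qn i) - (k : ℝ) * (1 / 192) * (1 / 8) ^ j ≤ pr M k i := by
  obtain ⟨hak, _⟩ := rn_pos h
  have hk : 1 ≤ k := by have := an_ge j; omega
  have hk' : (1 : ℝ) ≤ k := by exact_mod_cast hk
  have hlj := ln_pos j
  have hq := qn_pos i
  have hq1 := qn_le_one i
  -- heavy
  have hε0 := εn_pos i
  have hε1 := εn_lt_one i
  have h1 := D_ramp hk (u := 1 - εn i) (by linarith) (by linarith) (mM_nonneg M) (mM_le_one M)
    hlj (ramp hj h)
  have hP := P2_le_one (k := k) (u := 1 - εn i) (by linarith) (by linarith)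
  have hS := S1_le_mean (k := k) (u := 1 - εn i) (by linarith) (by linarith)
  have h2 : ((k : ℝ) + 1) * ((1 - εn i) / (1 - (1 - εn i))) ≤ 2 * k * (2 ^ (j + 4) * an j) := by
    have e1 : (1 - (1 - εn i)) = εn i := by ring
    rw [e1]
    have e2 : (1 - εn i) / εn i ≤ 1 / εn i := div_le_div_of_nonneg_right (by linarith) hε0.le
    have e3 : 1 / εn i = 2 ^ (i + 4) * an i := by
      unfold εn δn
      rw [one_div_div, one_div, inv_pow, div_inv_eq_mul]
      ring
    have e4 : (2 : ℝ) ^ (i + 4) * an i ≤ 2 ^ (j + 4) * an j := by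
      have : (an i : ℝ) ≤ an j := by exact_mod_cast an_mono hij
      have h' : (2 : ℝ) ^ (i + 4) ≤ 2 ^ (j + 4) := pow_le_pow_right₀ (by norm_num) (by omega)
      exact mul_le_mul h' this (Nat.cast_nonneg _) (by positivity)
    have e5 : (1 - εn i) / εn i ≤ 2 ^ (j + 4) * an j := by
      calc _ ≤ 1 / εn i := e2
        _ = _ := e3
        _ ≤ _ := e4
    have e6 : 0 ≤ (1 - εn i) / εn i := div_nonneg (by linarith) hε0.le
    exact mul_le_mul (by linarith) e5 e6 (by linarith)
  have h3 : S1 k (1 - εn i) / ln j ≤ 2 * k * (2 ^ (j + 4) * an j) / ln j :=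
    div_le_div_of_nonneg_right (hS.trans h2) hlj.le
  have hheavy : -(qn i) - 2 * k * (2 ^ (j + 4) * an j) / ln j ≤ qn i * D (mM M) k (1 - εn i) := by
    have hX : 0 ≤ 2 * (k : ℝ) * (2 ^ (j + 4) * an j) / ln j := by positivity
    have h4 : -1 - 2 * k * (2 ^ (j + 4) * an j) / ln j ≤ D (mM M) k (1 - εn i) := by linarith
    have h5 := mul_le_mul_of_nonneg_left h4 hq.le
    nlinarith
  -- small
  have hs := sn_pos i
  have g1 := D_ramp hk (u := un i) (un_pos i).le (un_lt i) (mM_nonneg M) (mM_le_one M)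
    hlj (ramp hj h)
  have gP := P2_le_one (k := k) (u := un i) (un_pos i).le (un_lt i)
  have gS := S1_le_mean (k := k) (u := un i) (un_pos i).le (un_lt i)
  have g2 : ((k : ℝ) + 1) * (un i / (1 - un i)) ≤ 2 * k * (2 / sn i) :=
    mul_le_mul (by linarith) (un_ratio i) (un_ratio_nonneg i) (by linarith)
  have g3 : S1 k (un i) / ln j ≤ 2 * k * (2 / sn i) / ln j :=
    div_le_div_of_nonneg_right (gS.trans g2) hlj.le
  have g4 : -1 - 2 * k * (2 / sn i) / ln j ≤ D (mM M) k (un i) := by linarith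
  have g5 := mul_le_mul_of_nonneg_left g4 hs.le
  have g6 : (sn i : ℝ) * (-1 - 2 * k * (2 / sn i) / ln j) = -(sn i : ℝ) - 4 * k / ln j := by
    field_simp; ring
  rw [g6] at g5
  have g7 : (sn i : ℝ) ≤ sn j := by exact_mod_cast sn_mono hij
  -- combine
  unfold pr
  have c1 : (sn j : ℝ) ≤ k * (1 / 384) * (1 / 8) ^ j := by
    have : (384 * 8 ^ j * sn j : ℕ) ≤ k := by rw [← an_eq]; exact hak
    have h' : (384 : ℝ) * 8 ^ j * sn j ≤ k := by exact_mod_cast this
    have e8 : (1 / (8 : ℝ)) ^ j * 8 ^ j = 1 := by rw [← mul_pow]; norm_num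
    have h8 : (0 : ℝ) < (1 / 8) ^ j := by positivity
    calc (sn j : ℝ) = (384 * 8 ^ j * sn j) * (1 / 384) * (1 / 8) ^ j := by
          have : (384 * 8 ^ j * (sn j : ℝ)) * (1 / 384) * (1 / 8) ^ j
            = sn j * ((1 / 8) ^ j * 8 ^ j) := by ring
          rw [this, e8, mul_one]
      _ ≤ _ := by
        apply mul_le_mul_of_nonneg_right _ h8.le
        apply mul_le_mul_of_nonneg_right h' (by norm_num)
  have c2 : 2 * (k : ℝ) * (2 ^ (j + 4) * an j) / ln j + 4 * k / ln j ≤ k * (1 / 384) * (1 / 8) ^ j := by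
    have hl : (384 : ℝ) * 8 ^ j * (2 ^ (j + 5) * an j + 4) ≤ ln j := by
      have : 384 * 8 ^ j * (2 ^ (j + 5) * an j + 4) ≤ ln j := by rw [ln_eq]; omega
      exact_mod_cast this
    rw [← add_div, div_le_iff₀ hlj]
    have e8 : (1 / (8 : ℝ)) ^ j * 8 ^ j = 1 := by rw [← mul_pow]; norm_num
    have h8 : (0 : ℝ) < (1 / 8) ^ j := by positivity
    calc 2 * (k : ℝ) * (2 ^ (j + 4) * an j) + 4 * k
        = k * (1 / 384) * (1 / 8) ^ j * (384 * 8 ^ j * (2 ^ (j + 5) * an j + 4)) := by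
          have : k * (1 / 384) * (1 / 8) ^ j * (384 * 8 ^ j * (2 ^ (j + 5) * (an j : ℝ) + 4))
            = k * (2 ^ (j + 5) * (an j : ℝ) + 4) * ((1 / 8) ^ j * 8 ^ j) := by ring
          rw [this, e8]; ring
      _ ≤ _ := by
        apply mul_le_mul_of_nonneg_left hl
        positivity
  linarith

/-- The drift inequality: contributions of the pair `i`, case `k` in zone `j`. -/
lemma pr_zone {M j k : ℕ} (hj : j < M) (h : 0 < rn j k) (i : ℕ) :
    (k : ℝ) * (-(1 / 64 * (1 / 4) ^ j) * qn i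
      + (if i = j + 1 ∧ j + 1 < M then 1 / 64 * (1 / 4) ^ j else 0)
      - (if M ≤ i then qn i else 0)) ≤ pr M k i := by
  obtain ⟨hak, hkD⟩ := rn_pos h
  have hk : 1 ≤ k := by have := an_ge j; omega
  have hk' : (1 : ℝ) ≤ k := by exact_mod_cast hk
  have hlj := ln_pos j
  have hlj1 : (1 : ℝ) ≤ ln j := by exact_mod_cast ln_ge_one j
  have hq := qn_pos i
  have hq1 := qn_le_one i
  have h8 : (0 : ℝ) < (1 / 8) ^ j := by positivity
  have h4 : (0 : ℝ) < (1 / 4) ^ j := by positivity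
  -- `1 ≤ k θ 4^{-j}`
  have hone : (1 : ℝ) ≤ k * (1 / 192) * (1 / 4) ^ j := by
    have h1 : 192 * 4 ^ j ≤ k := by
      refine le_trans ?_ hak
      rw [an_eq]
      have h1 : 1 ≤ sn j := by have := sn_ge' j; omega
      have h2 : 4 ^ j ≤ 8 ^ j := Nat.pow_le_pow_left (by norm_num) j
      calc 192 * 4 ^ j ≤ 384 * 8 ^ j := by omega
        _ = 384 * 8 ^ j * 1 := by ring
        _ ≤ _ := Nat.mul_le_mul_left _ h1
    have h2 : (192 : ℝ) * 4 ^ j ≤ k := by exact_mod_cast h1
    have e4 : (1 / (4 : ℝ)) ^ j * 4 ^ j = 1 := by rw [← mul_pow]; norm_num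
    calc (1 : ℝ) = (192 * 4 ^ j) * (1 / 192) * (1 / 4) ^ j := by
          have : (192 * (4 : ℝ) ^ j) * (1 / 192) * (1 / 4) ^ j = (1 / 4) ^ j * 4 ^ j := by ring
          rw [this, e4]
      _ ≤ _ := by
        apply mul_le_mul_of_nonneg_right _ h4.le
        apply mul_le_mul_of_nonneg_right h2 (by norm_num)
  have honeq : qn i ≤ k * (1 / 192) * (1 / 4) ^ j * qn i := by nlinarith
  by_cases hij : i ≤ j
  · -- below
    rw [if_neg (by omega), if_neg (by omega)]
    have h1 := pr_below (M := M) hj h hij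
    have h2 := four_eight j i hij
    have h3 : (k : ℝ) * (1 / 192) * (1 / 8) ^ j ≤ k * (1 / 192) * (2 * (1 / 4) ^ j * qn i) :=
      mul_le_mul_of_nonneg_left h2 (by positivity)
    nlinarith
  · push Not at hij
    -- small atoms
    have hkDi : k ≤ Dn i := by
      have := Dn_mono (show j + 1 ≤ i by omega)
      omega
    have hS := S1_nonneg (k := k) (un_pos i).le (un_lt i)
    have hsmall := small_above (M := M) (i := i) hk hkDi (by
      have g1 := D_ramp hk (u := un i) (un_pos i).le (un_lt i) (mM_nonneg M) (mM_le_one M)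
        hlj (ramp hj h)
      have g2 : S1 k (un i) / ln j ≤ S1 k (un i) := div_le_self hS hlj1
      linarith)
    have h2 := four_eight' j i hij.le
    have h3 : (k : ℝ) * (1 / 192) * (1 / 8) ^ i ≤ k * (1 / 192) * (2 * (1 / 4) ^ j * qn i) :=
      mul_le_mul_of_nonneg_left h2 (by positivity)
    have hmk : mM M k ≤ 1 - An j := by
      rw [mM_eq_of_pos hj h]; exact rn_le j k
    by_cases hiM : M ≤ i
    · -- beyond the support
      rw [if_neg (by omega), if_pos hiM]
      have hε0 := εn_pos i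
      have hε1 := εn_lt_one i
      have h1 := D_trivial' (k := k) (u := 1 - εn i) (by linarith) (by linarith) (mM_nonneg M)
      have hm1 := mM_le_one M k
      have h1' : -((k : ℝ) + 1) ≤ D (mM M) k (1 - εn i) := by
        have : ((k : ℝ) + 1) * mM M k ≤ (k + 1) * 1 :=
          mul_le_mul_of_nonneg_left hm1 (by linarith)
        linarith
      have h5 := mul_le_mul_of_nonneg_left h1' hq.le
      unfold pr
      nlinarith
    · push Not at hiM
      rw [if_neg (show ¬ M ≤ i by omega)]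
      have hε0 := εn_pos i
      have hε1 := εn_lt_one i
      have h1 := D_gain hk hε0 hε1.le (mM_nonneg M) (mM_le_one M)
        (c := 1 - An i) (b := 1 / (an i * ln i)) (by have := An_pos i; linarith)
        (by have := an_pos i; have := ln_pos i; positivity)
        (a := an i) (by have := an_ge i; omega) (fun n hn => gain hiM hn)
      have e1 : (an i : ℝ) * εn i = δn i := by
        unfold εn
        have := an_pos i
        field_simp
      have e2 : 1 / ((an i : ℝ) * ln i) * (2 * k / εn i) ≤ δn i := by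
        have hl : (2 : ℝ) * 4 ^ (i + 4) * Dn i ≤ ln i := by
          have : 2 * 4 ^ (i + 4) * Dn i ≤ ln i := by rw [ln_eq]; omega
          exact_mod_cast this
        have hkD' : (k : ℝ) ≤ Dn i := by exact_mod_cast hkDi
        have e3 : 1 / ((an i : ℝ) * ln i) * (2 * k / εn i) = 2 * k / δn i / ln i := by
          unfold εn
          have := an_pos i
          have := ln_pos i
          have := δn_pos i
          field_simp
        rw [e3, div_le_iff₀ (ln_pos i), div_le_iff₀ (δn_pos i)]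
        have e5 : δn i * δn i * 4 ^ (i + 4) = 1 := by
          unfold δn
          rw [← mul_pow, ← mul_pow]; norm_num
        have hδ := δn_pos i
        calc 2 * (k : ℝ) ≤ 2 * Dn i := by linarith
          _ = (δn i * δn i) * (2 * 4 ^ (i + 4) * Dn i) := by
            have : (δn i * δn i) * (2 * 4 ^ (i + 4) * (Dn i : ℝ))
              = 2 * Dn i * (δn i * δn i * 4 ^ (i + 4)) := by ring
            rw [this, e5, mul_one]
          _ ≤ (δn i * δn i) * ln i := mul_le_mul_of_nonneg_left hl (by positivity)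
          _ = _ := by ring
      rw [e1] at h1
      have h6 : (k : ℝ) * (1 - An i - δn i - δn i) - (k + 1) * (1 - An j)
          ≤ D (mM M) k (1 - εn i) := by
        have a1 : (k : ℝ) * (1 - An i - δn i - δn i)
          ≤ k * (1 - An i - 1 / ((an i : ℝ) * ln i) * (2 * k / εn i) - δn i) :=
          mul_le_mul_of_nonneg_left (by linarith) (by linarith)
        have a2 : ((k : ℝ) + 1) * mM M k ≤ (k + 1) * (1 - An j) :=
          mul_le_mul_of_nonneg_left hmk (by linarith)
        linarith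
      have hAj := An_pos j
      have h7 : (k : ℝ) * (An j - An i - 2 * δn i) - 1 ≤ D (mM M) k (1 - εn i) := by linarith
      have h9 := mul_le_mul_of_nonneg_left h7 hq.le
      have hAi : An i ≤ An (j + 1) := pow_le_pow_of_le_one (by norm_num) (by norm_num) (by omega)
      have hδi : δn i ≤ δn (j + 1) := pow_le_pow_of_le_one (by norm_num) (by norm_num) (by omega)
      have hA1 : An (j + 1) = An j / 2 := by unfold An; ring
      have hδ1 : δn (j + 1) = An j / 8 := by unfold An δn; ring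
      by_cases hi1 : i = j + 1
      · rw [if_pos ⟨hi1, by omega⟩]
        have hval : qn i * (An j - An i - 2 * δn i) = 1 / 64 * (1 / 4) ^ j := by
          rw [hi1, hA1, hδ1]
          have : qn (j + 1) = (1 / 4) * (1 / 2) ^ j := by unfold qn; ring
          rw [this]
          have h' : An j = (1 / 4) * (1 / 2) ^ j := by unfold An; ring
          rw [h']
          have e4 : (1 / (4 : ℝ)) ^ j = (1 / 2) ^ j * (1 / 2) ^ j := by
            rw [← mul_pow]; norm_num
          rw [e4]; ring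
        unfold pr
        have : qn i * ((k : ℝ) * (An j - An i - 2 * δn i) - 1)
          = k * (qn i * (An j - An i - 2 * δn i)) - qn i := by ring
        rw [this, hval] at h9
        nlinarith
      · rw [if_neg (by tauto)]
        have hpos : 0 ≤ An j - An i - 2 * δn i := by
          rw [hA1] at hAi; rw [hδ1] at hδi
          linarith
        have : 0 ≤ qn i * ((k : ℝ) * (An j - An i - 2 * δn i)) := by positivity
        unfold pr
        nlinarith

end Pool.Agent.H971.FV
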